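import Pool.Agent.W_92892c_h85.Hand

/-!
The congruent number curves: the formula over `ℚ`, the quadratic and the biquadratic fields.
-/

open Filter Topology

namespace MQV

open PPM

theorem fam_conductors : Conductors famA := by
  refine ⟨{p | p.Prime ∧ p ≠ 2}, ?_, fun p hp => hp.1, Real.sqrt 32 / (2 * Real.pi), by positivity,
    ?_⟩
  · exact (Nat.infinite_setOf_prime.diff (Set.finite_singleton 2)).mono fun p hp => ⟨hp.1, hp.2⟩
  · intro d hd hS
    have hodd : Odd d := by
      rw [← Nat.not_even_iff_odd]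
      intro h
      exact (hS 2 Nat.prime_two h.two_dvd).2 rfl
    have h1 : PPM.cond (-1) ((d : ℤ)).toNat = 32 * d ^ 2 := by
      unfold PPM.cond
      rw [Int.toNat_natCast, if_pos rfl, if_pos hodd]
    unfold famA
    rw [h1]
    push_cast
    rw [Real.sqrt_mul (by norm_num), Real.sqrt_sq (Nat.cast_nonneg d)]
    ring

theorem congruent_biq (L : ℤ → ℂ → ℂ) (c : ℤ → ℂ)
    (hL : ∀ d ∈ Twists true, Differentiable ℂ (L d) ∧ EulerProduct (gcurve 0 (-1) 0 d) (L d))
    (hc : ∀ d ∈ Twists true, c d ≠ 0) :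
    List.TFAE [
      ∀ d ∈ Twists true, BSD (L d) (rk 0 (-1) 0 d) (c d),
      ∀ C : Finset ℤ, ↑C ⊆ Twists true → IsCoset C → ∀ d ∈ C, quotK 0 (-1) 0 L c d C = 1,
      ∀ C : Finset ℤ, ↑C ⊆ Twists true → IsCoset C → C.card ≤ 4 → ∀ d ∈ C,
        quotK 0 (-1) 0 L c d C = 1] := by
  have hF : TwistFamily true Complex.Gamma L famA c :=
    ⟨fam_gamma, by rw [Complex.Gamma_one]; exact one_ne_zero,
      fun d hd => (hL d hd).1.analyticAt 1, famA_pos,
      fun d hd => fam_fe d hd (L d) (hL d hd).1 (by rw [← gcurve_congr]; exact (hL d hd).2),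
      fam_fin, hc⟩
  exact literal_biq congr_disc true Complex.Gamma L famA c hF fam_conductors

end MQV
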