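import Mathlib
import Pool.Agent.W_92892c_h28.RLemma

/-!
Uniform version of Lemma R: a space of functionals of dimension `> n / 2` on truncated series kills
types `e^{x z} G(z) E(z)` for at most `(n + 1) ^ 2` values of `x`.
-/

namespace W92892cH85

open Finset Matrix Filter Topology

/-- The determinant of the functionals with distinct tops on the columns `e^{xz} G z^(2j)` is not
zero for some `x`. -/
theorem exists_det_ne_zero {G : PowerSeries ℂ} (hG : PowerSeries.coeff 0 G = 1) (n t : ℕ)
    (d : Fin t → Fin (n + 1)) (hd : StrictMono d) (φ : Fin t → Fin (n + 1) → ℂ)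
    (hφd : ∀ s, φ s (d s) ≠ 0) (hφtop : ∀ s l, d s < l → φ s l = 0)
    (hlow : ∀ s : Fin t, 2 * (s : ℕ) ≤ (d s : ℕ)) :
    ∃ x : ℂ, (Matrix.of fun s j : Fin t =>
      ∑ l : Fin (n + 1), φ s l * W92892c.hh G l j x).det ≠ 0 := by
  classical
  by_contra hcon
  push Not at hcon
  let x : ℕ → ℂ := fun i => (i : ℂ)
  have hx : Tendsto (fun i => ‖x i‖) atTop atTop := by
    simp only [x, Complex.norm_natCast]
    exact tendsto_natCast_atTop_atTop
  let A : ℕ → Matrix (Fin t) (Fin t) ℂ := fun i => Matrix.of fun s j =>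
    ∑ l : Fin (n + 1), φ s l * W92892c.hh G l j (x i)
  have hdetA : ∀ i, (A i).det = 0 := fun i => hcon (x i)
  let B : ℕ → Matrix (Fin t) (Fin t) ℂ := fun i => Matrix.of fun s j =>
    ((x i) ^ (d s : ℕ))⁻¹ * A i s j * (x i) ^ (2 * (j : ℕ))
  have hdetB : ∀ i, (B i).det = 0 := by
    intro i
    have h1 : B i = Matrix.of fun (s j : Fin t) => (x i) ^ (2 * (j : ℕ)) *
        (Matrix.of fun (s j : Fin t) =>
          ((x i) ^ (d s : ℕ))⁻¹ * A i s j) s j := by
      ext s j
      simp only [B, Matrix.of_apply]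
      ring
    rw [h1, Matrix.det_mul_row, Matrix.det_mul_column, hdetA i, mul_zero, mul_zero]
  let C : Matrix (Fin t) (Fin t) ℂ := Matrix.of fun s j =>
    φ s (d s) * ((W92892c.ent (((d s : ℕ) : ℤ) - (2 * (j : ℕ) : ℕ)) : ℝ) : ℂ)
  have htend' : ∀ s j, Tendsto (fun i => B i s j) atTop (𝓝 (C s j)) := by
    intro s j
    simp only [B, C, Matrix.of_apply, A]
    have hterm : ∀ l ∈ (Finset.univ : Finset (Fin (n + 1))), Tendsto
        (fun i => φ s l *
          (((x i) ^ (d s : ℕ))⁻¹ * W92892c.hh G l j (x i) * (x i) ^ (2 * (j : ℕ)))) atTop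
        (𝓝 (if l = d s then φ s (d s) *
      ((W92892c.ent (((d s : ℕ) : ℤ) - (2 * (j : ℕ) : ℕ)) : ℝ) : ℂ) else 0)) := by
      intro l _
      by_cases hl : d s < l
      · rw [hφtop _ l hl, if_neg (ne_of_gt hl)]
        simp
      · have hl' : (l : ℕ) ≤ (d s : ℕ) := not_lt.1 hl
        have h1 := (W92892c.tendsto_hh hG hx (d s) l j hl').const_mul (φ s l)
        by_cases hld : l = d s
        · rw [if_pos hld]
          have hld' : (l : ℕ) = (d s : ℕ) := by rw [hld]
          rw [if_pos hld'] at h1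
          rw [hld] at h1 ⊢
          exact h1
        · rw [if_neg hld]
          have hld' : (l : ℕ) ≠ (d s : ℕ) := fun h => hld (Fin.ext h)
          rw [if_neg hld', mul_zero] at h1
          exact h1
    have hsum := tendsto_finsetSum Finset.univ hterm
    rw [Finset.sum_ite_eq' Finset.univ (d s)] at hsum
    rw [if_pos (Finset.mem_univ _)] at hsum
    refine hsum.congr fun i => ?_
    rw [Finset.mul_sum, Finset.sum_mul]
    refine Finset.sum_congr rfl fun l _ => ?_
    ring
  have htend : Tendsto B atTop (𝓝 C) :=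
    tendsto_pi_nhds.2 fun s => tendsto_pi_nhds.2 fun j => htend' s j
  have hdetC : C.det = 0 := by
    have h1 : Tendsto (fun i => (B i).det) atTop (𝓝 C.det) :=
      ((Continuous.matrix_det continuous_id).tendsto C).comp htend
    simp only [hdetB] at h1
    exact tendsto_nhds_unique h1 tendsto_const_nhds |>.symm ▸ rfl
  have hCdet : C.det = (∏ s : Fin t, φ s (d s)) *
      (((W92892c.tpMat (fun s : Fin t => ((d s : ℕ) : ℤ))
        (fun j : Fin t => ((2 * (j : ℕ) : ℕ) : ℤ))).det : ℝ) : ℂ) := by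
    have h1 : C = Matrix.of fun s j => φ s (d s) *
        ((Complex.ofRealHom.mapMatrix (W92892c.tpMat (fun s : Fin t => ((d s : ℕ) : ℤ))
        (fun j : Fin t => ((2 * (j : ℕ) : ℕ) : ℤ))).transpose) s j) := by
      ext s j
      simp [C, W92892c.tpMat]
    rw [h1, Matrix.det_mul_column, ← RingHom.map_det, Matrix.det_transpose]
    rfl
  have hpos : 0 < (W92892c.tpMat (fun s : Fin t => ((d s : ℕ) : ℤ))
        (fun j : Fin t => ((2 * (j : ℕ) : ℕ) : ℤ))).det := by
    apply W92892c.tp_det_pos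
    · intro a b hab
      have h3 : (d a : ℕ) < (d b : ℕ) := hd hab
      show ((d a : ℕ) : ℤ) < ((d b : ℕ) : ℤ)
      exact_mod_cast h3
    · intro a b hab
      have h3 : (a : ℕ) < (b : ℕ) := hab
      show ((2 * (a : ℕ) : ℕ) : ℤ) < ((2 * (b : ℕ) : ℕ) : ℤ)
      exact_mod_cast (by omega : 2 * (a : ℕ) < 2 * (b : ℕ))
    · intro s
      show ((2 * (s : ℕ) : ℕ) : ℤ) ≤ ((d s : ℕ) : ℤ)
      exact_mod_cast hlow s
  rw [hCdet] at hdetC
  rcases mul_eq_zero.1 hdetC with h | h
  · obtain ⟨s, _, hs⟩ := Finset.prod_eq_zero_iff.1 h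
    exact hφd _ hs
  · have : (W92892c.tpMat (fun s : Fin t => ((d s : ℕ) : ℤ))
        (fun j : Fin t => ((2 * (j : ℕ) : ℕ) : ℤ))).det = 0 := by exact_mod_cast h
    rw [this] at hpos
    exact lt_irrefl _ hpos

/-- The polynomial `x ↦ [z^l] (e^{xz} G z^(2j))`. -/
noncomputable def hhP (G : PowerSeries ℂ) (l j : ℕ) : Polynomial ℂ :=
  if 2 * j ≤ l then ∑ ab ∈ antidiagonal (l - 2 * j),
    Polynomial.C (1 / (ab.1.factorial : ℂ) * PowerSeries.coeff ab.2 G) * Polynomial.X ^ ab.1
  else 0

theorem eval_hhP (G : PowerSeries ℂ) (l j : ℕ) (x : ℂ) :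
    (hhP G l j).eval x = W92892c.hh G l j x := by
  unfold hhP W92892c.hh
  split_ifs
  · rw [W92892c.coeff_hser, Polynomial.eval_finsetSum]
    refine Finset.sum_congr rfl fun ab _ => ?_
    simp only [Polynomial.eval_mul, Polynomial.eval_C, Polynomial.eval_pow, Polynomial.eval_X]
    ring
  · simp

theorem natDegree_hhP (G : PowerSeries ℂ) (l j : ℕ) : (hhP G l j).natDegree ≤ l := by
  unfold hhP
  split_ifs
  · refine Polynomial.natDegree_sum_le_of_forall_le _ _ fun ab hab => ?_
    rw [HasAntidiagonal.mem_antidiagonal] at hab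
    refine (Polynomial.natDegree_C_mul_X_pow_le _ _).trans ?_
    omega
  · simp

theorem natDegree_det_le {t n : ℕ} (A : Matrix (Fin t) (Fin t) (Polynomial ℂ))
    (hA : ∀ i j, (A i j).natDegree ≤ n) : A.det.natDegree ≤ t * n := by
  rw [Matrix.det_apply]
  refine Polynomial.natDegree_sum_le_of_forall_le _ _ fun σ _ => ?_
  refine (Polynomial.natDegree_smul_le _ _).trans ?_
  refine (Polynomial.natDegree_prod_le _ _).trans ?_
  refine (Finset.sum_le_card_nsmul _ _ n fun i _ => hA _ _).trans ?_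
  simp

/-- **Lemma P.** -/
theorem lemP {G : PowerSeries ℂ} (hG : PowerSeries.coeff 0 G = 1) (n : ℕ)
    (Λ : Submodule ℂ (Fin (n + 1) → ℂ)) (hΛ : n / 2 < Module.finrank ℂ Λ) (s : Finset ℂ)
    (hs : ∀ x ∈ s, ∃ F : PowerSeries ℂ, W92892c.IsType G x F ∧
      ∀ φ ∈ Λ, ∑ l : Fin (n + 1), φ l * PowerSeries.coeff (l : ℕ) F = 0) :
    s.card ≤ (n + 1) ^ 2 := by
  classical
  obtain ⟨d, φ, hd, hφΛ, hφd, hφtop⟩ := W92892c.distinct_tops (N := n / 2 + 1) Λ hΛ
  have hex : ∃ t, t = n / 2 + 1 ∨ ∃ h : t < n / 2 + 1, ((d ⟨t, h⟩ : Fin (n + 1)) : ℕ) < 2 * t :=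
    ⟨n / 2 + 1, Or.inl rfl⟩
  set t := Nat.find hex with ht
  have htN : t ≤ n / 2 + 1 := Nat.find_min' hex (Or.inl rfl)
  have htspec := Nat.find_spec hex
  rw [← ht] at htspec
  have ht0 : 0 < t := by
    rcases Nat.eq_zero_or_pos t with h0 | h0
    · rw [h0] at htspec
      rcases htspec with h | ⟨h, h'⟩ <;> omega
    · exact h0
  have hlow : ∀ s : Fin t, 2 * (s : ℕ) ≤ (d (Fin.castLE htN s) : ℕ) := by
    intro s
    have h1 := Nat.find_min hex (m := (s : ℕ)) (by rw [← ht]; exact s.2)
    push Not at h1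
    exact h1.2 (lt_of_lt_of_le s.2 htN)
  have hhigh : ∀ s : Fin t, (d (Fin.castLE htN s) : ℕ) < 2 * t := by
    intro s
    rcases htspec with h | ⟨h, h'⟩
    · have := (d (Fin.castLE htN s)).2
      omega
    · have h2 : d (Fin.castLE htN s) < d ⟨t, h⟩ := hd (by
        show (Fin.castLE htN s : ℕ) < t
        simp)
      have h3 : (d (Fin.castLE htN s) : ℕ) < (d ⟨t, h⟩ : ℕ) := h2
      omega
  let AP : Matrix (Fin t) (Fin t) (Polynomial ℂ) := Matrix.of fun s j =>
    ∑ l : Fin (n + 1), Polynomial.C (φ (Fin.castLE htN s) l) * hhP G l j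
  have hev : ∀ x : ℂ, AP.det.eval x = (Matrix.of fun s j : Fin t =>
      ∑ l : Fin (n + 1), φ (Fin.castLE htN s) l * W92892c.hh G l j x).det := by
    intro x
    rw [← Polynomial.coe_evalRingHom, RingHom.map_det]
    congr 1
    ext s j
    simp only [AP, RingHom.mapMatrix_apply, Matrix.map_apply, Matrix.of_apply,
      Polynomial.coe_evalRingHom, Polynomial.eval_finsetSum, Polynomial.eval_mul,
      Polynomial.eval_C, eval_hhP]
  have hne : AP.det ≠ 0 := by
    intro h0
    obtain ⟨x, hx⟩ := exists_det_ne_zero hG n t (fun s => d (Fin.castLE htN s))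
      (fun a b hab => hd (by simpa using hab)) (fun s => φ (Fin.castLE htN s))
      (fun s => hφd _) (fun s l h => hφtop _ l h) hlow
    exact hx (by rw [← hev, h0, Polynomial.eval_zero])
  have hdeg : AP.det.natDegree ≤ t * n := by
    refine natDegree_det_le AP fun s j => ?_
    show (∑ l : Fin (n + 1), Polynomial.C (φ (Fin.castLE htN s) l) * hhP G l j).natDegree ≤ n
    refine Polynomial.natDegree_sum_le_of_forall_le _ _ fun l _ => ?_
    refine (Polynomial.natDegree_C_mul_le (φ (Fin.castLE htN s) l) (hhP G (l : ℕ) (j : ℕ))).trans ?_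
    refine (natDegree_hhP G (l : ℕ) (j : ℕ)).trans ?_
    omega
  have hroot : s ⊆ AP.det.roots.toFinset := by
    intro x hx
    rw [Multiset.mem_toFinset, Polynomial.mem_roots hne, Polynomial.IsRoot.def, hev]
    obtain ⟨F, ⟨E, hE, hE0, hFE⟩, hF⟩ := hs x hx
    by_contra hne'
    have hmul : (Matrix.of fun s j : Fin t =>
      ∑ l : Fin (n + 1), φ (Fin.castLE htN s) l * W92892c.hh G l j x).mulVec
        (fun j : Fin t => PowerSeries.coeff (2 * (j : ℕ)) E) = 0 := by
      funext s
      simp only [Matrix.mulVec, dotProduct, Matrix.of_apply, Pi.zero_apply]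
      rw [← hF (φ (Fin.castLE htN s)) (hφΛ _)]
      simp only [Finset.sum_mul]
      rw [Finset.sum_comm]
      refine Finset.sum_congr rfl fun l _ => ?_
      by_cases hl : d (Fin.castLE htN s) < l
      · rw [hφtop _ l hl]; simp
      · have hl' : (l : ℕ) ≤ (d (Fin.castLE htN s) : ℕ) := not_lt.1 hl
        have h1 := W92892c.coeff_type_eq G E x hE t l (lt_of_le_of_lt hl' (hhigh s))
        rw [hFE]
        unfold W92892c.hser at h1
        rw [h1, Finset.mul_sum, Finset.sum_range]
        refine Finset.sum_congr rfl fun j _ => ?_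
        ring
    have h0 := Matrix.eq_zero_of_mulVec_eq_zero hne' hmul
    have h1 := congrFun h0 ⟨0, ht0⟩
    simp only [mul_zero, Pi.zero_apply] at h1
    rw [hE0] at h1
    exact one_ne_zero h1
  calc s.card ≤ AP.det.roots.toFinset.card := Finset.card_le_card hroot
    _ ≤ Multiset.card AP.det.roots := Multiset.toFinset_card_le _
    _ ≤ AP.det.natDegree := Polynomial.card_roots' _
    _ ≤ t * n := hdeg
    _ ≤ (n + 1) ^ 2 := by
      have h1 : t * n ≤ (n / 2 + 1) * n := Nat.mul_le_mul_right _ htN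
      have h2 : n / 2 + 1 ≤ n + 1 := by omega
      calc t * n ≤ (n / 2 + 1) * n := h1
        _ ≤ (n + 1) * (n + 1) := Nat.mul_le_mul h2 (Nat.le_succ n)
        _ = (n + 1) ^ 2 := by ring

/-- The truncation of a power series. -/
noncomputable def tr (n : ℕ) (F : PowerSeries ℂ) : Fin (n + 1) → ℂ := fun l =>
  PowerSeries.coeff (l : ℕ) F

/-- Types with more than `(n + 1) ^ 2` different parameters span a large space.  PROOF: as
`W92892cH53.finrank_ge` (E3.lean) with `lemP` in place of `finrank_le_half`: the annihilator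
`Λ = {φ | ∀ v ∈ U, ∑ φ l * v l = 0}` of the span `U` has dimension `≥ n + 1 - finrank U`; if
`n / 2 < finrank Λ` then `lemP` with `s = univ.image x` gives `(univ.image x).card ≤ (n + 1) ^ 2`. -/
theorem span_ge {G : PowerSeries ℂ} (hG : PowerSeries.coeff 0 G = 1) (n m : ℕ) (x : Fin m → ℂ)
    (F : Fin m → PowerSeries ℂ) (hF : ∀ j, W92892c.IsType G (x j) (F j))
    (hx : (n + 1) ^ 2 < (Finset.univ.image x).card) :
    n + 1 - n / 2 ≤ Module.finrank ℂ (Submodule.span ℂ (Set.range fun j => tr n (F j))) := by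
  classical
  set U := Submodule.span ℂ (Set.range fun j => tr n (F j)) with hU
  let T : (Fin (n + 1) → ℂ) →ₗ[ℂ] Module.Dual ℂ U :=
    { toFun := fun v =>
        { toFun := fun b => ∑ l, v l * (b : Fin (n + 1) → ℂ) l
          map_add' := by
            intro a b
            simp only [Submodule.coe_add, Pi.add_apply, mul_add, Finset.sum_add_distrib]
          map_smul' := by
            intro c a
            simp only [Submodule.coe_smul, Pi.smul_apply, smul_eq_mul, RingHom.id_apply,
              Finset.mul_sum]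
            exact Finset.sum_congr rfl fun l _ => by ring }
      map_add' := by
        intro a b
        ext c
        simp only [Pi.add_apply, add_mul, Finset.sum_add_distrib, LinearMap.coe_mk,
          AddHom.coe_mk, LinearMap.add_apply]
      map_smul' := by
        intro c a
        ext b
        simp only [Pi.smul_apply, smul_eq_mul, RingHom.id_apply, LinearMap.coe_mk,
          AddHom.coe_mk, LinearMap.smul_apply, Finset.mul_sum]
        exact Finset.sum_congr rfl fun l _ => by ring }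
  have h1 := LinearMap.finrank_range_add_finrank_ker T
  have h2 : Module.finrank ℂ (LinearMap.range T) ≤ Module.finrank ℂ U := by
    refine (Submodule.finrank_le _).trans ?_
    rw [Subspace.dual_finrank_eq]
  rw [Module.finrank_fin_fun] at h1
  have h3 : Module.finrank ℂ (LinearMap.ker T) ≤ n / 2 := by
    by_contra hlt
    push Not at hlt
    refine absurd (lemP hG n (LinearMap.ker T) hlt (Finset.univ.image x) ?_) (not_le.2 hx)
    intro y hy
    obtain ⟨j, _, rfl⟩ := Finset.mem_image.1 hy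
    refine ⟨F j, hF j, fun φ hφ => ?_⟩
    have h4 : T φ ⟨tr n (F j), Submodule.subset_span ⟨j, rfl⟩⟩ = 0 := by
      rw [LinearMap.mem_ker.1 hφ]; rfl
    exact h4
  omega

end W92892cH85
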