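import Pool.Agent.W_92892c_h85.LemP
import Pool.Agent.W_92892c_h53.Exact

/-!
The parameters of a type orthogonal to many products of two types: uniform bound.
-/

namespace W92892cH85

open Finset PowerSeries

/-- The functional `y ↦ [X^κ] (Fd p y) - e0 p(0) y(0)`. -/
noncomputable def Phi (κ : ℕ) (Fd : PowerSeries ℂ) (e0 : ℂ) (p y : PowerSeries ℂ) : ℂ :=
  coeff κ (Fd * p * y) - e0 * (coeff 0 p * coeff 0 y)

/-- The matrix of the functionals of `p j` on the series `e^{xz} G(z) z^(2b)`, `2 b ≤ κ`. -/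
noncomputable def MA (κ : ℕ) {m : ℕ} (G Fd : PowerSeries ℂ) (e0 : ℂ) (p : Fin m → PowerSeries ℂ)
    (x : ℂ) : Matrix (Fin m) (Fin (κ / 2 + 1)) ℂ :=
  Matrix.of fun j b => Phi κ Fd e0 (p j) (W92892c.hser G x * X ^ (2 * (b : ℕ)))

theorem Phi_sum {ι : Type*} (s : Finset ι) (κ : ℕ) (Fd : PowerSeries ℂ) (e0 : ℂ)
    (p : PowerSeries ℂ) (y : ι → PowerSeries ℂ) (c : ι → ℂ) :
    Phi κ Fd e0 p (∑ i ∈ s, C (c i) * y i) = ∑ i ∈ s, c i * Phi κ Fd e0 p (y i) := by
  unfold Phi
  rw [Finset.mul_sum, map_sum, map_sum, Finset.mul_sum, Finset.mul_sum, ← Finset.sum_sub_distrib]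
  refine Finset.sum_congr rfl fun i _ => ?_
  rw [show Fd * p * (C (c i) * y i) = C (c i) * (Fd * p * y i) by ring, coeff_C_mul, coeff_C_mul]
  ring

theorem Phi_congr {κ : ℕ} {Fd : PowerSeries ℂ} {e0 : ℂ} {p p' y y' : PowerSeries ℂ}
    (hp : ∀ l ≤ κ, coeff l p = coeff l p') (hy : ∀ l ≤ κ, coeff l y = coeff l y') :
    Phi κ Fd e0 p y = Phi κ Fd e0 p' y' := by
  unfold Phi
  rw [hp 0 (Nat.zero_le _), hy 0 (Nat.zero_le _),
    W92892cH53.coeff_mul_congr (n := κ)
      (W92892cH53.coeff_mul_congr (n := κ) (f := Fd) (f' := Fd) (fun _ _ => rfl) hp) hy κ le_rfl]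

theorem hh_eq (G : PowerSeries ℂ) (l j : ℕ) (x : ℂ) :
    W92892c.hh G l j x = coeff l (W92892c.hser G x * X ^ (2 * j)) := by
  unfold W92892c.hh
  rw [PowerSeries.coeff_mul_X_pow']

theorem coeff_hser_zero {G : PowerSeries ℂ} (hG : coeff 0 G = 1) (x : ℂ) :
    coeff 0 (W92892c.hser G x) = 1 := by
  rw [W92892c.coeff_hser]
  simp [hG]

/-- A type killed by all functionals gives a vector in the kernel. -/
theorem ker_of_type {κ m : ℕ} {G Fd : PowerSeries ℂ} {e0 : ℂ} {p : Fin m → PowerSeries ℂ} {x : ℂ}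
    {F : PowerSeries ℂ} (hF : W92892c.IsType G x F) (h : ∀ j, Phi κ Fd e0 (p j) F = 0) :
    ∃ v : Fin (κ / 2 + 1) → ℂ, v ≠ 0 ∧ (MA κ G Fd e0 p x).mulVec v = 0 := by
  obtain ⟨E, hE, hE0, hFE⟩ := hF
  refine ⟨fun b => coeff (2 * (b : ℕ)) E, ?_, ?_⟩
  · intro h0
    have h1 := congrFun h0 ⟨0, by omega⟩
    simp only [mul_zero, Pi.zero_apply] at h1
    rw [hE0] at h1
    exact one_ne_zero h1
  · funext j
    simp only [Matrix.mulVec, dotProduct, MA, Matrix.of_apply, Pi.zero_apply]
    rw [← h j]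
    rw [Phi_congr (p' := p j) (y' := ∑ b : Fin (κ / 2 + 1), C (coeff (2 * (b : ℕ)) E) *
      (W92892c.hser G x * X ^ (2 * (b : ℕ)))) (fun _ _ => rfl) ?_, Phi_sum]
    · exact Finset.sum_congr rfl fun b _ => mul_comm _ _
    · intro l hl
      have h1 := W92892c.coeff_type_eq G E x hE (κ / 2 + 1) l (by omega)
      rw [hFE, show rescale x (exp ℂ) * G * E = W92892c.hser G x * E from rfl, h1,
        Finset.sum_range, map_sum]
      refine Finset.sum_congr rfl fun b _ => ?_
      rw [hh_eq, coeff_C_mul, mul_comm]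

/-- The functionals on the truncated series. -/
noncomputable def Lb (κ b n : ℕ) (Fd : PowerSeries ℂ) (e0 : ℂ) :
    (Fin (n + 1) → ℂ) →ₗ[ℂ] (Fin (n + 1) → ℂ) where
  toFun u := fun l => Phi κ Fd e0 (W92892cH53.ps u) (X ^ (2 * b + (l : ℕ)))
  map_add' u v := by
    funext l
    simp only [Phi, W92892cH53.ps_add, Pi.add_apply, mul_add, add_mul, map_add]
    ring
  map_smul' c u := by
    funext l
    simp only [Phi, W92892cH53.ps_smul, Pi.smul_apply, smul_eq_mul, RingHom.id_apply]
    rw [show Fd * (C c * W92892cH53.ps u) * X ^ (2 * b + (l : ℕ)) =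
      C c * (Fd * W92892cH53.ps u * X ^ (2 * b + (l : ℕ))) by ring, coeff_C_mul, coeff_C_mul]
    ring

theorem coeff_Phi_X {κ : ℕ} {Fd : PowerSeries ℂ} {e0 : ℂ} {p : PowerSeries ℂ} (t : ℕ) (ht : t ≤ κ) :
    Phi κ Fd e0 p (X ^ t) = coeff (κ - t) (Fd * p) - (if t = 0 then e0 * coeff 0 p else 0) := by
  unfold Phi
  rw [PowerSeries.coeff_mul_X_pow', if_pos ht, PowerSeries.coeff_X_pow]
  congr 1
  by_cases h : t = 0
  · rw [if_pos h, if_pos h.symm, mul_one]
  · rw [if_neg h, if_neg (Ne.symm h), mul_zero, mul_zero]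

theorem Lb_tr {κ b n : ℕ} (hn : n = κ - 2 * b) (hb : 2 * b ≤ κ) (Fd : PowerSeries ℂ) (e0 : ℂ)
    (p : PowerSeries ℂ) (l : Fin (n + 1)) :
    Lb κ b n Fd e0 (tr n p) l = Phi κ Fd e0 p (X ^ (2 * b + (l : ℕ))) := by
  have hl := l.2
  show Phi κ Fd e0 (W92892cH53.ps (tr n p)) (X ^ (2 * b + (l : ℕ))) = _
  have h0 : ∀ i ≤ n, coeff i (W92892cH53.ps (tr n p)) = coeff i p := by
    intro i hi
    rw [W92892cH53.coeff_ps, dif_pos (by omega)]
    rfl
  rw [coeff_Phi_X _ (by omega), coeff_Phi_X _ (by omega), h0 0 (Nat.zero_le _),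
    W92892cH53.coeff_mul_congr (n := n) (f := Fd) (f' := Fd) (fun _ _ => rfl) h0
      (κ - (2 * b + (l : ℕ))) (by omega)]

theorem Lb_injective {κ b n : ℕ} (hκ : 1 ≤ κ) (hn : n = κ - 2 * b) (hb : 2 * b ≤ κ)
    {Fd : PowerSeries ℂ} (hFd : coeff 0 Fd = 1) (e0 : ℂ) :
    Function.Injective (Lb κ b n Fd e0) := by
  rw [← LinearMap.ker_eq_bot, LinearMap.ker_eq_bot']
  intro u hu
  have key : ∀ i : ℕ, ∀ hi : i < n + 1, u ⟨i, hi⟩ = 0 := by
    intro i
    induction i using Nat.strong_induction_on with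
    | _ i ih =>
      intro hi
      have h1 := congrFun hu ⟨n - i, by omega⟩
      have h2 : Phi κ Fd e0 (W92892cH53.ps u) (X ^ (2 * b + (n - i))) = 0 := h1
      rw [coeff_Phi_X _ (by omega), show κ - (2 * b + (n - i)) = i by omega] at h2
      have h3 : coeff i (Fd * W92892cH53.ps u) = u ⟨i, hi⟩ := by
        rw [PowerSeries.coeff_mul, Finset.sum_eq_single (0, i)]
        · rw [hFd, one_mul, W92892cH53.coeff_ps, dif_pos hi]
        · rintro ⟨a, c⟩ hac hne
          rw [HasAntidiagonal.mem_antidiagonal] at hac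
          simp only at hac ⊢
          have hc : c < i := by
            rcases Nat.lt_or_ge c i with h | h
            · exact h
            · exfalso
              apply hne
              ext <;> simp only <;> omega
          rw [W92892cH53.coeff_ps, dif_pos (by omega), ih c hc, mul_zero]
        · intro h
          exact absurd (by rw [HasAntidiagonal.mem_antidiagonal]; simp) h
      rw [h3] at h2
      by_cases h4 : 2 * b + (n - i) = 0
      · rw [if_pos h4, W92892cH53.coeff_ps, dif_pos (by omega), ih 0 (by omega), mul_zero,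
          sub_zero] at h2
        exact h2
      · rw [if_neg h4, sub_zero] at h2
        exact h2
  funext i
  exact key i.1 i.2

/-- The bound. -/
theorem bad_card {κ m : ℕ} (hκ : 1 ≤ κ) {G G' : PowerSeries ℂ} (hG : coeff 0 G = 1)
    (hG' : coeff 0 G' = 1) {Fd : PowerSeries ℂ} (hFd : coeff 0 Fd = 1) (e0 : ℂ) (x' : Fin m → ℂ)
    (p : Fin m → PowerSeries ℂ) (hp : ∀ j, W92892c.IsType G' (x' j) (p j))
    (hx' : (κ + 1) ^ 2 < (Finset.univ.image x').card) (s : Finset ℂ)
    (hs : ∀ x ∈ s, ∃ v : Fin (κ / 2 + 1) → ℂ, v ≠ 0 ∧ (MA κ G Fd e0 p x).mulVec v = 0) :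
    s.card ≤ (κ / 2 + 1) * (κ + 1) ^ 2 := by
  classical
  -- the lowest index
  have hlow : ∀ x ∈ s, ∃ b : Fin (κ / 2 + 1), ∃ v : Fin (κ / 2 + 1) → ℂ, v b ≠ 0 ∧
      (∀ c < b, v c = 0) ∧ (MA κ G Fd e0 p x).mulVec v = 0 := by
    intro x hx
    obtain ⟨v, hv, hv0⟩ := hs x hx
    have hne : (Finset.univ.filter fun b => v b ≠ 0).Nonempty := by
      by_contra hcon
      rw [Finset.not_nonempty_iff_eq_empty, Finset.filter_eq_empty_iff] at hcon
      apply hv
      funext b
      have := hcon (Finset.mem_univ b)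
      push Not at this
      exact this
    refine ⟨(Finset.univ.filter fun b => v b ≠ 0).min' hne, v, ?_, ?_, hv0⟩
    · exact (Finset.mem_filter.1 (Finset.min'_mem _ hne)).2
    · intro c hc
      by_contra hcon
      exact absurd (Finset.min'_le _ c (Finset.mem_filter.2 ⟨Finset.mem_univ _, hcon⟩))
        (not_le.2 hc)
  choose! b hb using hlow
  have hfib : ∀ b0 : Fin (κ / 2 + 1), (s.filter fun x => b x = b0).card ≤ (κ + 1) ^ 2 := by
    intro b0
    have hb0 : 2 * (b0 : ℕ) ≤ κ := by have := b0.2; omega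
    obtain ⟨n, hn⟩ : ∃ n, n = κ - 2 * (b0 : ℕ) := ⟨_, rfl⟩
    have hnk : n ≤ κ := by omega
    set U : Submodule ℂ (Fin (n + 1) → ℂ) :=
      Submodule.span ℂ (Set.range fun j => tr n (p j)) with hU
    have hUf : n + 1 - n / 2 ≤ Module.finrank ℂ U := by
      refine span_ge hG' n m x' p hp (lt_of_le_of_lt ?_ hx')
      exact Nat.pow_le_pow_left (by omega) 2
    set Λ : Submodule ℂ (Fin (n + 1) → ℂ) := U.map (Lb κ b0 n Fd e0) with hΛ
    have hinj := Lb_injective (n := n) hκ hn hb0 hFd e0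
    have hΛf : Module.finrank ℂ Λ = Module.finrank ℂ U :=
      (LinearEquiv.finrank_eq (Submodule.equivMapOfInjective _ hinj U)).symm
    refine (lemP hG n Λ (by omega) _ ?_).trans (Nat.pow_le_pow_left (by omega) 2)
    intro x hx
    obtain ⟨hxs, hxb⟩ := Finset.mem_filter.1 hx
    obtain ⟨v, hv1, hv2, hv3⟩ := hb x hxs
    rw [hxb] at hv1 hv2
    -- the even part
    set E : PowerSeries ℂ := ∑ c : Fin (κ / 2 + 1),
      C (v c / v b0) * X ^ (2 * ((c : ℕ) - (b0 : ℕ))) with hEdef
    have hcoeffE : ∀ j, coeff j E = ∑ c : Fin (κ / 2 + 1),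
        (v c / v b0) * (if j = 2 * ((c : ℕ) - (b0 : ℕ)) then 1 else 0) := by
      intro j
      rw [hEdef, map_sum]
      refine Finset.sum_congr rfl fun c _ => ?_
      rw [coeff_C_mul, PowerSeries.coeff_X_pow]
    have hEodd : ∀ j, Odd j → coeff j E = 0 := by
      intro j hj
      rw [hcoeffE]
      refine Finset.sum_eq_zero fun c _ => ?_
      rw [if_neg, mul_zero]
      intro h
      rw [h] at hj
      exact (Nat.not_odd_iff_even.2 (even_two_mul _)) hj
    have hE0 : coeff 0 E = 1 := by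
      rw [hcoeffE, Finset.sum_eq_single b0]
      · rw [if_pos (by omega), mul_one, div_self hv1]
      · intro c _ hc
        rcases lt_or_gt_of_ne hc with h | h
        · rw [hv2 c h, zero_div, zero_mul]
        · rw [if_neg, mul_zero]
          have : (b0 : ℕ) < (c : ℕ) := h
          omega
      · intro h
        exact absurd (Finset.mem_univ _) h
    refine ⟨W92892c.hser G x * E, ⟨E, hEodd, hE0, rfl⟩, ?_⟩
    -- the relation
    have hXF : C (v b0) * (X ^ (2 * (b0 : ℕ)) * (W92892c.hser G x * E)) =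
        ∑ c : Fin (κ / 2 + 1), C (v c) * (W92892c.hser G x * X ^ (2 * (c : ℕ))) := by
      rw [hEdef, Finset.mul_sum, Finset.mul_sum, Finset.mul_sum]
      refine Finset.sum_congr rfl fun c _ => ?_
      rcases lt_or_ge c b0 with h | h
      · rw [hv2 c h]
        simp
      · have h1 : 2 * (c : ℕ) = 2 * (b0 : ℕ) + 2 * ((c : ℕ) - (b0 : ℕ)) := by
          have : (b0 : ℕ) ≤ (c : ℕ) := h
          omega
        rw [h1, pow_add, show v c = v b0 * (v c / v b0) by field_simp, map_mul,
          show v b0 * (v c / v b0) / v b0 = v c / v b0 by field_simp]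
        ring
    have hrel : ∀ j, Phi κ Fd e0 (p j) (X ^ (2 * (b0 : ℕ)) * (W92892c.hser G x * E)) = 0 := by
      intro j
      have h1 := congrFun hv3 j
      simp only [Matrix.mulVec, dotProduct, MA, Matrix.of_apply, Pi.zero_apply] at h1
      have h2 := Phi_sum (Finset.univ : Finset (Fin (κ / 2 + 1))) κ Fd e0 (p j)
        (fun c => W92892c.hser G x * X ^ (2 * (c : ℕ))) v
      rw [← hXF] at h2
      have h3 := Phi_sum ({()} : Finset Unit) κ Fd e0 (p j)
        (fun _ => X ^ (2 * (b0 : ℕ)) * (W92892c.hser G x * E)) (fun _ => v b0)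
      rw [Finset.sum_singleton, Finset.sum_singleton, h2] at h3
      have h4 : ∑ c : Fin (κ / 2 + 1), v c *
          Phi κ Fd e0 (p j) (W92892c.hser G x * X ^ (2 * (c : ℕ))) = 0 := by
        rw [← h1]
        exact Finset.sum_congr rfl fun c _ => mul_comm _ _
      rw [h4] at h3
      rcases mul_eq_zero.1 h3.symm with h5 | h5
      · exact absurd h5 hv1
      · exact h5
    intro φ hφ
    rw [hΛ, hU, Submodule.map_span] at hφ
    induction hφ using Submodule.span_induction with
    | mem y hy =>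
      obtain ⟨_, ⟨j, rfl⟩, rfl⟩ := hy
      rw [← hrel j]
      rw [Phi_congr (κ := κ) (p' := p j) (y' := ∑ l : Fin (n + 1),
        C (coeff (l : ℕ) (W92892c.hser G x * E)) * X ^ (2 * (b0 : ℕ) + (l : ℕ)))
        (fun _ _ => rfl) ?_, Phi_sum]
      · refine Finset.sum_congr rfl fun l _ => ?_
        rw [Lb_tr hn hb0, mul_comm]
      · intro i hi
        rw [PowerSeries.coeff_X_pow_mul', map_sum]
        by_cases h1 : 2 * (b0 : ℕ) ≤ i
        · rw [if_pos h1, Finset.sum_eq_single (⟨i - 2 * (b0 : ℕ), by omega⟩ : Fin (n + 1))]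
          · rw [coeff_C_mul, PowerSeries.coeff_X_pow, if_pos (by simp only; omega), mul_one]
          · intro l _ hl
            rw [coeff_C_mul, PowerSeries.coeff_X_pow, if_neg, mul_zero]
            intro h2
            apply hl
            ext
            simp only
            omega
          · intro h
            exact absurd (Finset.mem_univ _) h
        · rw [if_neg h1]
          symm
          refine Finset.sum_eq_zero fun l _ => ?_
          rw [coeff_C_mul, PowerSeries.coeff_X_pow, if_neg (by omega), mul_zero]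
    | zero => simp
    | add y z _ _ hy hz =>
      simp only [Pi.add_apply, add_mul, Finset.sum_add_distrib]
      rw [hy, hz, add_zero]
    | smul c y _ hy =>
      simp only [Pi.smul_apply, smul_eq_mul, mul_assoc]
      rw [← Finset.mul_sum, hy, mul_zero]
  have h1 := Finset.card_eq_sum_card_fiberwise (f := b) (s := s)
    (t := (Finset.univ : Finset (Fin (κ / 2 + 1)))) (fun x _ => Finset.mem_univ _)
  rw [h1]
  refine (Finset.sum_le_card_nsmul _ _ ((κ + 1) ^ 2) fun c _ => hfib c).trans ?_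
  rw [Finset.card_univ, Fintype.card_fin, smul_eq_mul]

end W92892cH85
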