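import Pool.Agent.W_92892c_h85.Cnt

/-!
The configuration.
-/

namespace W92892cH85

open Finset PowerSeries Filter

theorem sum_symmDiff {D : Type*} [AddCommGroup D] (hD : ∀ a : D, a + a = 0) (p : ℕ → D)
    (I J : Finset ℕ) : ∑ x ∈ symmDiff I J, p x = ∑ x ∈ I, p x + ∑ x ∈ J, p x := by
  have h1 : ∑ v ∈ I, p v = ∑ v ∈ I \ J, p v + ∑ v ∈ I ∩ J, p v := by
    rw [add_comm]
    exact (Finset.sum_inter_add_sum_sdiff I J p).symm
  have h3 : ∑ v ∈ J, p v = ∑ v ∈ J \ I, p v + ∑ v ∈ I ∩ J, p v := by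
    rw [Finset.inter_comm, add_comm]
    exact (Finset.sum_inter_add_sum_sdiff J I p).symm
  have h5 : Disjoint (I \ J) (J \ I) := by
    rw [Finset.disjoint_left]
    intro x hx hx'
    rw [Finset.mem_sdiff] at hx hx'
    exact hx.2 hx'.1
  rw [show symmDiff I J = (I \ J) ∪ (J \ I) from rfl, Finset.sum_union h5, h1, h3]
  have h6 := hD (∑ v ∈ I ∩ J, p v)
  calc ∑ v ∈ I \ J, p v + ∑ v ∈ J \ I, p v
      = ∑ v ∈ I \ J, p v + ∑ v ∈ J \ I, p v + 0 := by rw [add_zero]
    _ = ∑ v ∈ I \ J, p v + ∑ v ∈ J \ I, p v + (∑ v ∈ I ∩ J, p v + ∑ v ∈ I ∩ J, p v) := by rw [h6]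
    _ = _ := by abel

theorem sum_symmDiff_real (w : ℕ → ℝ) (I J : Finset ℕ) :
    ∑ x ∈ symmDiff I J, w x = ∑ x ∈ I, w x + ∑ x ∈ J, w x - 2 * ∑ x ∈ I ∩ J, w x := by
  have h1 : ∑ v ∈ I, w v = ∑ v ∈ I \ J, w v + ∑ v ∈ I ∩ J, w v := by
    rw [add_comm]
    exact (Finset.sum_inter_add_sum_sdiff I J w).symm
  have h3 : ∑ v ∈ J, w v = ∑ v ∈ J \ I, w v + ∑ v ∈ I ∩ J, w v := by
    rw [Finset.inter_comm, add_comm]
    exact (Finset.sum_inter_add_sum_sdiff J I w).symm
  have h5 : Disjoint (I \ J) (J \ I) := by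
    rw [Finset.disjoint_left]
    intro x hx hx'
    rw [Finset.mem_sdiff] at hx hx'
    exact hx.2 hx'.1
  rw [show symmDiff I J = (I \ J) ∪ (J \ I) from rfl, Finset.sum_union h5, h1, h3]
  ring

/-- Far points with different values of finitely many functions. -/
theorem exists_far {C : Type*} [Finite C] (g : C → ℕ → ℝ)
    (hg : ∀ c, Tendsto (g c) atTop atTop) (N1 m : ℕ) :
    ∃ b : Fin m → ℕ, (∀ j, N1 ≤ b j) ∧ ∀ c, Function.Injective fun j => g c (b j) := by
  classical
  induction m with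
  | zero => exact ⟨fun j => j.elim0, fun j => j.elim0, fun c j => j.elim0⟩
  | succ m ih =>
    obtain ⟨b, hb1, hb2⟩ := ih
    have h1 : ∀ᶠ x in atTop, ∀ c, ∀ j : Fin m, g c (b j) < g c x := by
      rw [eventually_all]
      intro c
      rw [eventually_all]
      intro j
      exact (hg c).eventually_gt_atTop _
    obtain ⟨x, hx1, hx2⟩ := (h1.and (eventually_ge_atTop N1)).exists
    refine ⟨Fin.snoc b x, ?_, ?_⟩
    · intro j
      induction j using Fin.lastCases with
      | last => rw [Fin.snoc_last]; exact hx2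
      | cast j => rw [Fin.snoc_castSucc]; exact hb1 j
    · intro c i j hij
      simp only at hij
      induction i using Fin.lastCases with
      | last =>
        induction j using Fin.lastCases with
        | last => rfl
        | cast j =>
          rw [Fin.snoc_last, Fin.snoc_castSucc] at hij
          exact absurd hij (ne_of_gt (hx1 c j))
      | cast i =>
        induction j using Fin.lastCases with
        | last =>
          rw [Fin.snoc_last, Fin.snoc_castSucc] at hij
          exact absurd hij (ne_of_lt (hx1 c i))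
        | cast j =>
          rw [Fin.snoc_castSucc, Fin.snoc_castSucc] at hij
          exact congrArg Fin.castSucc (hb2 c hij)

theorem cfg_contra {D : Type*} [AddCommGroup D] (hD : ∀ a : D, a + a = 0) {R : PowerSeries ℂ}
    (hR : coeff 0 R = 1) {lam : D → ℝ} {f : D → PowerSeries ℂ} {k : D → ℕ}
    (H : W92892cH53.Exact R lam f k) (d : D) (hd : 1 ≤ k d) (p : ℕ → D) (lam0 : ℝ) (w : ℕ → ℝ)
    (hw : Function.Injective w)
    (hlam : ∀ I : Finset ℕ, lam (∑ i ∈ I, p i) = lam0 + ∑ i ∈ I, w i)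
    (hgood : ∀ N : ℕ, ∃ N0 : ℕ, ∀ I : Finset ℕ, I.card ≤ N → (∃ i ∈ I, N0 ≤ i) →
      k (∑ i ∈ I, p i) = 0 ∧ k (d + ∑ i ∈ I, p i) = 0 ∧ ∑ i ∈ I, p i ≠ 0 ∧ ∑ i ∈ I, p i ≠ d) :
    False := by
  classical
  have hGi : coeff 0 R⁻¹ = 1 := by
    rw [PowerSeries.coeff_zero_eq_constantCoeff_apply] at hR ⊢
    rw [PowerSeries.constantCoeff_inv, hR, inv_one]
  have hGG : coeff 0 (R⁻¹ * R⁻¹) = 1 := by
    rw [PowerSeries.coeff_zero_eq_constantCoeff_apply] at hGi ⊢
    rw [map_mul, hGi, one_mul]
  obtain ⟨m, hm⟩ : ∃ m, m = (k d + 1) ^ 2 + 1 := ⟨_, rfl⟩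
  obtain ⟨q, hq⟩ : ∃ q, q = 2 * ((k d / 2 + 1) * (k d + 1) ^ 2) := ⟨_, rfl⟩
  have hq2 : 2 ≤ q := by
    rw [hq]
    have : 1 ≤ (k d / 2 + 1) * (k d + 1) ^ 2 := Nat.succ_le_of_lt (by positivity)
    omega
  obtain ⟨n, hn⟩ := (count_contra (m := m) hd hq hGi hGG (H.zero d) (coeff (k d) (f d))).exists
  obtain ⟨N0, hN0⟩ := hgood (q + n + 1)
  have hpinj : Function.Injective p := by
    intro a b hab
    have h1 := hlam {a}
    have h2 := hlam {b}
    rw [Finset.sum_singleton, Finset.sum_singleton] at h1 h2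
    rw [hab, h2] at h1
    exact (hw (add_left_cancel h1)).symm
  -- the table of primes
  let c : Fin n → Fin q → ℕ := fun i r => N0 + (finProdFinEquiv (i, r) : ℕ)
  have hc : ∀ i r i' r', c i r = c i' r' → i = i' ∧ r = r' := by
    intro i r i' r' h
    have h1 : (finProdFinEquiv (i, r) : ℕ) = (finProdFinEquiv (i', r') : ℕ) := by
      have h0 : N0 + (finProdFinEquiv (i, r) : ℕ) = N0 + (finProdFinEquiv (i', r') : ℕ) := h
      omega
    have h2 := finProdFinEquiv.injective (Fin.ext h1)
    exact ⟨congrArg Prod.fst h2, congrArg Prod.snd h2⟩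
  have hcge : ∀ i r, N0 ≤ c i r := fun i r => Nat.le_add_right _ _
  have hclt : ∀ i r, c i r < N0 + n * q := fun i r =>
    Nat.add_lt_add_left (finProdFinEquiv (i, r)).2 N0
  let I : Fin n → Finset ℕ := fun i => Finset.univ.image (c i)
  let J : (Fin n → Fin q) → Finset ℕ := fun h => Finset.univ.image fun i => c i (h i)
  have hIc : ∀ i, (I i).card ≤ q := fun i =>
    Finset.card_image_le.trans (by rw [Finset.card_univ, Fintype.card_fin])
  have hJc : ∀ h, (J h).card ≤ n := fun h =>
    Finset.card_image_le.trans (by rw [Finset.card_univ, Fintype.card_fin])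
  have hIJ : ∀ i h, I i ∩ J h = {c i (h i)} := by
    intro i h
    ext x
    simp only [I, J, Finset.mem_inter, Finset.mem_image, Finset.mem_univ, true_and,
      Finset.mem_singleton]
    constructor
    · rintro ⟨⟨r, rfl⟩, ⟨i', hi'⟩⟩
      obtain ⟨h1, h2⟩ := hc _ _ _ _ hi'
      rw [← h2, h1]
    · rintro rfl
      exact ⟨⟨_, rfl⟩, ⟨i, rfl⟩⟩
  let S : Fin n → D := fun i => ∑ x ∈ I i, p x
  let S' : (Fin n → Fin q) → D := fun h => ∑ x ∈ J h, p x
  have hSS : ∀ i h, S i + S' h = ∑ x ∈ symmDiff (I i) (J h), p x := fun i h =>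
    (sum_symmDiff hD p _ _).symm
  -- the common elements
  let g : Fin n × (Fin n → Fin q) → ℕ → ℝ := fun e b =>
    lam (p b + S e.1) + lam (d + (p b + S' e.2))
  have hg : ∀ e, Tendsto (g e) atTop atTop := by
    intro e
    have h1 : Tendsto (fun b => lam (p b + S e.1)) atTop atTop := by
      rw [← Nat.cofinite_eq_atTop]
      exact H.grow.comp (Function.Injective.tendsto_cofinite fun a b hab =>
        hpinj (add_right_cancel hab))
    have h2 : Tendsto (fun b => lam (d + (p b + S' e.2))) atTop atTop := by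
      rw [← Nat.cofinite_eq_atTop]
      exact H.grow.comp (Function.Injective.tendsto_cofinite fun a b hab =>
        hpinj (add_right_cancel (add_left_cancel hab)))
    exact h1.atTop_add_atTop h2
  obtain ⟨b, hb1, hb2⟩ := exists_far g hg (N0 + n * q) m
  have hbI : ∀ j i, b j ∉ I i := by
    intro j i hmem
    obtain ⟨r, -, hr⟩ := Finset.mem_image.1 hmem
    have h1 := hclt i r
    have h2 := hb1 j
    omega
  have hbJ : ∀ j h, b j ∉ J h := by
    intro j h hmem
    obtain ⟨i, -, hr⟩ := Finset.mem_image.1 hmem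
    have h1 := hclt i (h i)
    have h2 := hb1 j
    omega
  have hbS : ∀ j i, p (b j) + S i = ∑ x ∈ insert (b j) (I i), p x := fun j i =>
    (Finset.sum_insert (hbI j i)).symm
  have hbS' : ∀ j h, p (b j) + S' h = ∑ x ∈ insert (b j) (J h), p x := fun j h =>
    (Finset.sum_insert (hbJ j h)).symm
  have good1 : ∀ j i, k (p (b j) + S i) = 0 ∧ k (d + (p (b j) + S i)) = 0 ∧
      p (b j) + S i ≠ 0 ∧ p (b j) + S i ≠ d := by
    intro j i
    rw [hbS]
    refine hN0 _ ?_ ⟨b j, Finset.mem_insert_self _ _, by have := hb1 j; omega⟩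
    have h1 := Finset.card_insert_le (b j) (I i)
    have h2 := hIc i
    omega
  have good2 : ∀ j h, k (p (b j) + S' h) = 0 ∧ k (d + (p (b j) + S' h)) = 0 ∧
      p (b j) + S' h ≠ 0 ∧ p (b j) + S' h ≠ d := by
    intro j h
    rw [hbS']
    refine hN0 _ ?_ ⟨b j, Finset.mem_insert_self _ _, by have := hb1 j; omega⟩
    have h1 := Finset.card_insert_le (b j) (J h)
    have h2 := hJc h
    omega
  have good3 : ∀ i h, k (S i + S' h) = 0 ∧ k (d + (S i + S' h)) = 0 ∧ S i + S' h ≠ 0 ∧
      S i + S' h ≠ d := by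
    intro i h
    rw [hSS]
    refine hN0 _ ?_ ?_
    · have h1 : (symmDiff (I i) (J h)).card ≤ (I i ∪ J h).card :=
        Finset.card_le_card (by
          intro x hx
          rw [Finset.mem_symmDiff] at hx
          rw [Finset.mem_union]
          rcases hx with h | h
          · exact Or.inl h.1
          · exact Or.inr h.1)
      have h2 := Finset.card_union_le (I i) (J h)
      have h3 := hIc i
      have h4 := hJc h
      omega
    · -- another element of the row
      obtain ⟨r, hr⟩ : ∃ r : Fin q, r ≠ h i := by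
        have : Nontrivial (Fin q) := Fin.nontrivial_iff_two_le.2 hq2
        exact exists_ne (h i)
      refine ⟨c i r, ?_, hcge _ _⟩
      rw [Finset.mem_symmDiff]
      refine Or.inl ⟨Finset.mem_image_of_mem _ (Finset.mem_univ _), ?_⟩
      intro hmem
      have h1 : c i r ∈ I i ∩ J h :=
        Finset.mem_inter.2 ⟨Finset.mem_image_of_mem _ (Finset.mem_univ _), hmem⟩
      rw [hIJ, Finset.mem_singleton] at h1
      exact hr (hc _ _ _ _ h1).2
  -- apply the counting lemma
  refine hn (fun i j => f (p (b j) + S i)) (fun h j => f (d + (p (b j) + S' h)))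
    (fun i h => f (S i + S' h)) (fun i => ((-(lam0 + ∑ x ∈ I i, w x) : ℝ) : ℂ))
    (fun h => ((∑ x ∈ J h, w x : ℝ) : ℂ)) (fun i r => ((2 * w (c i r) : ℝ) : ℂ))
    (fun i h j => ((-lam (p (b j) + S i) : ℝ) : ℂ) + ((-lam (d + (p (b j) + S' h)) : ℝ) : ℂ))
    ?_ ?_ ?_ ?_ ?_
  · intro i r r' hrr
    have h1 : (2 * w (c i r) : ℝ) = 2 * w (c i r') := Complex.ofReal_injective hrr
    have h2 : c i r = c i r' := hw (by linarith)
    exact (hc _ _ _ _ h2).2
  · intro i h j
    exact W92892cH53.IsType.mul (H.isType hR _) (H.isType hR _)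
  · intro i h
    rw [Finset.card_image_of_injective, Finset.card_univ, Fintype.card_fin, hm]
    · exact Nat.lt_succ_self _
    · intro j j' hjj
      have h1 : (((-lam (p (b j) + S i) + -lam (d + (p (b j) + S' h)) : ℝ)) : ℂ) =
          ((-lam (p (b j') + S i) + -lam (d + (p (b j') + S' h)) : ℝ) : ℂ) := by
        push_cast
        push_cast at hjj
        exact hjj
      have h2 := Complex.ofReal_injective h1
      apply hb2 (i, h)
      show lam (p (b j) + S i) + lam (d + (p (b j) + S' h)) =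
        lam (p (b j') + S i) + lam (d + (p (b j') + S' h))
      linarith
  · intro i h
    have h1 := H.isType hR (S i + S' h)
    have h2 : (((-(lam0 + ∑ x ∈ I i, w x) : ℝ) : ℂ) - ((∑ x ∈ J h, w x : ℝ) : ℂ) +
        ((2 * w (c i (h i)) : ℝ) : ℂ)) = ((-lam (S i + S' h) : ℝ) : ℂ) := by
      rw [hSS, hlam, sum_symmDiff_real, hIJ, Finset.sum_singleton]
      push_cast
      ring
    rw [h2]
    exact h1
  · intro i h j
    obtain ⟨a1, -, -, a4⟩ := good1 j i
    obtain ⟨-, b2, b3, -⟩ := good2 j h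
    obtain ⟨c1, -, -, c4⟩ := good3 i h
    have hsum : p (b j) + S i + (d + (p (b j) + S' h)) + (S i + S' h) = d := by
      have e1 : p (b j) + S i + (d + (p (b j) + S' h)) + (S i + S' h) =
          d + (p (b j) + p (b j)) + (S i + S i) + (S' h + S' h) := by abel
      rw [e1, hD, hD, hD, add_zero, add_zero, add_zero]
    have n1 : p (b j) + S i ≠ d + (p (b j) + S' h) := by
      intro h1
      apply c4
      have h2 : S i = d + S' h := by
        have : p (b j) + S i = p (b j) + (d + S' h) := by rw [h1]; abel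
        exact add_left_cancel this
      rw [h2, add_assoc, hD, add_zero]
    have n2 : p (b j) + S i ≠ S i + S' h := by
      intro h1
      apply b3
      have h2 : p (b j) = S' h := by
        have : p (b j) + S i = S' h + S i := by rw [h1]; abel
        exact add_right_cancel this
      rw [h2, hD]
    have n3 : d + (p (b j) + S' h) ≠ S i + S' h := by
      intro h1
      apply a4
      have h2 : d + p (b j) = S i := by
        have : d + p (b j) + S' h = S i + S' h := by rw [← h1]; abel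
        exact add_right_cancel this
      rw [← h2, show p (b j) + (d + p (b j)) = d + (p (b j) + p (b j)) by abel, hD, add_zero]
    have h4 := H.four _ _ _ n1 n2 n3
    rw [hsum, a1, b2, c1, H.zero, H.zero, H.zero, one_mul, one_mul, one_mul, zero_add, zero_add,
      zero_add] at h4
    rw [← h4]
    congr 1
    ring

end W92892cH85
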