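import Mathlib

/-!
A polynomial is eventually smaller than an exponential.
-/

namespace W92892cH85

open Filter

/-- `(n A + 1) ^ M < 2 ^ n` eventually. -/
theorem poly_lt_two_pow (A M : ℕ) : ∀ᶠ n : ℕ in atTop, (n * A + 1) ^ M < 2 ^ n := by
  have h := (tendsto_pow_const_div_const_pow_of_one_lt M (one_lt_two : (1 : ℝ) < 2)).const_mul
    (((A : ℝ) + 1) ^ M)
  rw [mul_zero] at h
  filter_upwards [h.eventually_lt_const one_pos, eventually_ge_atTop 1] with n hn h1
  have h2 : (0 : ℝ) < 2 ^ n := by positivity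
  rw [← mul_div_assoc, div_lt_one h2, ← mul_pow] at hn
  have h3 : ((n * A + 1 : ℕ) : ℝ) ^ M ≤ (((A : ℝ) + 1) * n) ^ M := by
    apply pow_le_pow_left₀ (by positivity)
    push_cast
    have : (1 : ℝ) ≤ n := by exact_mod_cast h1
    nlinarith
  exact_mod_cast lt_of_le_of_lt h3 hn

/-- The growth estimate of the counting argument. -/
theorem growth (A M B : ℕ) (hB : 1 ≤ B) :
    ∀ᶠ n : ℕ in atTop, (n * A + 1) ^ M * B ^ n < (2 * B) ^ n := by
  filter_upwards [poly_lt_two_pow A M] with n hn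
  rw [mul_pow]
  exact Nat.mul_lt_mul_of_pos_right hn (pow_pos hB n)

end W92892cH85
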