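import Mathlib

/-!
Vanishing of all maximal minors.
-/

namespace W92892cH85

/-- A matrix with at least as many rows as columns (here: any `m × T` matrix) has a nonzero vector in
its kernel iff all determinants of `T` rows (with repetition allowed) vanish.  PROOF.  (→) a kernel
vector `v ≠ 0` of `A` is a kernel vector of every `A.submatrix g id`
(`Matrix.exists_mulVec_eq_zero_iff`).  (←) If the kernel is `0`, the rows span `Fin T → ℂ` (their
orthogonal complement is the kernel; or: `A.rank = T`), choose a linearly independent family of `T`
rows (`exists_linearIndependent'`) and its determinant is not `0`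
(`Matrix.linearIndependent_rows_iff_isUnit`, `Matrix.isUnit_iff_isUnit_det`). -/
theorem ker_iff_minors {m T : ℕ} (A : Matrix (Fin m) (Fin T) ℂ) :
    (∃ v : Fin T → ℂ, v ≠ 0 ∧ A.mulVec v = 0) ↔
      ∀ g : Fin T → Fin m, (A.submatrix g id).det = 0 := by
  classical
  constructor
  · rintro ⟨v, hv, hAv⟩ g
    rw [← Matrix.exists_mulVec_eq_zero_iff]
    refine ⟨v, hv, ?_⟩
    ext i
    have := congrFun hAv (g i)
    simpa [Matrix.mulVec, dotProduct] using this
  · intro h
    by_contra hk
    push Not at hk
    have hinj : Function.Injective A.mulVecLin := by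
      rw [← LinearMap.ker_eq_bot, LinearMap.ker_eq_bot']
      intro v hv
      by_contra hv0
      exact hk v hv0 (by simpa using hv)
    have hrank : A.rank = T := by
      rw [Matrix.rank, LinearMap.finrank_range_of_inj hinj, Module.finrank_fintype_fun_eq_card,
        Fintype.card_fin]
    rw [Matrix.rank_eq_finrank_span_row] at hrank
    obtain ⟨κ, a, ha, hspan, hli⟩ := exists_linearIndependent' ℂ A.row
    haveI : Finite κ := Finite.of_injective a ha
    haveI : Fintype κ := Fintype.ofFinite κ
    have hcard : Fintype.card κ = T := by
      rw [← hrank, ← hspan, finrank_span_eq_card hli]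
    let e : Fin T ≃ κ := (Fintype.equivFinOfCardEq hcard).symm
    have hli2 : LinearIndependent ℂ (A.submatrix (a ∘ e) id).row := by
      have := hli.comp e e.injective
      exact this
    rw [Matrix.linearIndependent_rows_iff_isUnit, Matrix.isUnit_iff_isUnit_det,
      isUnit_iff_ne_zero] at hli2
    exact hli2 (h _)

end W92892cH85
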