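import Mathlib

/-!
Zero patterns of polynomials (Rónyai, Babai, Ganapathy): `N` polynomials of degree at most `D` in `M`
variables have at most `(N D + 1) ^ M` zero patterns.
-/

namespace W92892cH85

open Finset MvPolynomial

/-- A polynomial of total degree at most `D` is determined by its coefficients at the `(D + 1) ^ M`
exponents `m` with all `m i ≤ D` (`M = card σ`): linearly independent families of such polynomials have
at most `(D + 1) ^ M` members. -/
theorem card_le_of_linearIndependent {σ α : Type*} [Fintype σ] [Fintype α] (D : ℕ)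
    (P : α → MvPolynomial σ ℂ) (hD : ∀ a, (P a).totalDegree ≤ D)
    (hP : LinearIndependent ℂ P) : Fintype.card α ≤ (D + 1) ^ Fintype.card σ := by
  classical
  let ex : (σ → Fin (D + 1)) → (σ →₀ ℕ) := fun m =>
    Finsupp.equivFunOnFinite.symm (fun i => (m i : ℕ))
  let T : MvPolynomial σ ℂ →ₗ[ℂ] ((σ → Fin (D + 1)) → ℂ) :=
    LinearMap.pi fun m => MvPolynomial.lcoeff ℂ (ex m)
  have hT : ∀ (Q : MvPolynomial σ ℂ) (m), T Q m = coeff (ex m) Q := fun Q m => rfl
  have hker : ∀ Q : MvPolynomial σ ℂ, Q.totalDegree ≤ D → T Q = 0 → Q = 0 := by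
    intro Q hQ h0
    ext m
    rw [coeff_zero]
    by_contra hne
    have hmem : m ∈ Q.support := mem_support_iff.2 hne
    have hle : (m.sum fun _ e => e) ≤ D := le_trans (le_totalDegree hmem) hQ
    have hi : ∀ i, m i ≤ D := by
      intro i
      refine le_trans ?_ hle
      by_cases hi : i ∈ m.support
      · exact Finset.single_le_sum (f := fun i => m i) (fun _ _ => Nat.zero_le _) hi
      · rw [Finsupp.notMem_support_iff.1 hi]
        exact Nat.zero_le _
    have h1 := congrFun h0 (fun i => (⟨m i, Nat.lt_succ_of_le (hi i)⟩ : Fin (D + 1)))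
    rw [hT] at h1
    apply hne
    have h2 : ex (fun i => (⟨m i, Nat.lt_succ_of_le (hi i)⟩ : Fin (D + 1))) = m := by
      ext i
      simp [ex]
    rw [h2] at h1
    exact h1
  have hli : LinearIndependent ℂ (fun a => T (P a)) := by
    rw [Fintype.linearIndependent_iff]
    intro g hg
    have h3 : T (∑ a, g a • P a) = 0 := by
      rw [map_sum]
      simpa using hg
    have h4 : (∑ a, g a • P a).totalDegree ≤ D := by
      refine totalDegree_finsetSum_le fun a _ => ?_
      exact le_trans (totalDegree_smul_le _ _) (hD a)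
    exact Fintype.linearIndependent_iff.1 hP g (hker _ h4 h3)
  have h5 := hli.fintype_card_le_finrank
  rw [Module.finrank_fintype_fun_eq_card] at h5
  simpa using h5

/-- **Zero patterns.**  PROOF: for `a : α` put `S a = {i | eval (u a) (P i) ≠ 0}` and `g a = ∏ i ∈ S a,
P i`, of total degree `≤ card ι * D`.  `eval (u b) (g a) ≠ 0` iff `S a ⊆ S b`.  The `g a` are linearly
independent: in a relation `∑ c a • g a = 0` with some `c a ≠ 0` choose `b` with `c b ≠ 0` and
`(S b).card` minimal and evaluate at `u b`: only `a` with `c a ≠ 0` and `S a ⊆ S b` contribute, so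
`S a = S b` by minimality, `a = b` by injectivity, `c b * eval (u b) (g b) = 0`, a contradiction. -/
theorem zero_patterns {σ ι α : Type*} [Fintype σ] [Fintype ι] [Fintype α] (D : ℕ)
    (P : ι → MvPolynomial σ ℂ) (hD : ∀ i, (P i).totalDegree ≤ D) (u : α → σ → ℂ)
    (hu : Function.Injective fun a : α => {i : ι | eval (u a) (P i) ≠ 0}) :
    Fintype.card α ≤ (Fintype.card ι * D + 1) ^ Fintype.card σ := by
  classical
  let S : α → Finset ι := fun a => Finset.univ.filter fun i => eval (u a) (P i) ≠ 0
  have hS : ∀ a i, i ∈ S a ↔ eval (u a) (P i) ≠ 0 := fun a i => by simp [S]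
  have hSinj : Function.Injective S := by
    intro a b hab
    apply hu
    ext i
    simp only [Set.mem_setOf_eq]
    rw [← hS, ← hS, hab]
  let g : α → MvPolynomial σ ℂ := fun a => ∏ i ∈ S a, P i
  have hgd : ∀ a, (g a).totalDegree ≤ Fintype.card ι * D := by
    intro a
    refine le_trans (totalDegree_finset_prod _ _) ?_
    refine le_trans (Finset.sum_le_card_nsmul _ _ D fun i _ => hD i) ?_
    rw [smul_eq_mul]
    exact Nat.mul_le_mul_right _ (Finset.card_le_univ _)
  have hge : ∀ a b, eval (u b) (g a) ≠ 0 → S a ⊆ S b := by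
    intro a b h i hi
    rw [hS]
    simp only [g, map_prod] at h
    exact Finset.prod_ne_zero_iff.1 h i hi
  have hgb : ∀ b, eval (u b) (g b) ≠ 0 := by
    intro b
    simp only [g, map_prod]
    exact Finset.prod_ne_zero_iff.2 fun i hi => (hS b i).1 hi
  have hli : LinearIndependent ℂ g := by
    rw [Fintype.linearIndependent_iff]
    intro c hc
    by_contra hne
    push Not at hne
    obtain ⟨a0, ha0⟩ := hne
    obtain ⟨b, hb, hmin⟩ := Finset.exists_min_image (Finset.univ.filter fun a => c a ≠ 0)
      (fun a => (S a).card) ⟨a0, by simp [ha0]⟩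
    have hcb : c b ≠ 0 := by simpa using hb
    have h1 : ∑ a, c a * eval (u b) (g a) = 0 := by
      have := congrArg (eval (u b)) hc
      simpa [smul_eval] using this
    rw [Finset.sum_eq_single b] at h1
    · rcases mul_eq_zero.1 h1 with h | h
      · exact hcb h
      · exact hgb b h
    · intro a _ hab
      by_contra h2
      have hca : c a ≠ 0 := fun h => h2 (by rw [h, zero_mul])
      have he : eval (u b) (g a) ≠ 0 := fun h => h2 (by rw [h, mul_zero])
      have hsub := hge a b he
      have hcard : (S b).card ≤ (S a).card := hmin a (by simp [hca])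
      exact hab (hSinj (Finset.eq_of_subset_of_card_le hsub hcard))
    · intro h
      exact absurd (Finset.mem_univ b) h
  exact card_le_of_linearIndependent _ g hgd hli

end W92892cH85
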