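import Pool.Agent.W_92892c_h85.Pd
import Pool.Agent.W_92892c_h85.Minor
import Pool.Agent.W_92892c_h85.ZP
import Pool.Agent.W_92892c_h85.Grow

/-!
The counting argument.
-/

namespace W92892cH85

open Finset PowerSeries Filter

/-- The point of the parameters of `h`. -/
noncomputable def pt {κ m : ℕ} (Z' : Fin m → PowerSeries ℂ) (τ : ℂ) :
    Option (Fin m × Fin (κ + 1)) → ℂ
  | none => τ
  | some (j, l) => coeff (l : ℕ) (Z' j)

theorem coeff_pu_pt {κ m : ℕ} (Z' : Fin m → PowerSeries ℂ) (τ : ℂ) (j : Fin m) {l : ℕ}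
    (hl : l ≤ κ) : coeff l (pu (κ := κ) (pt Z' τ) j) = coeff l (Z' j) := by
  unfold pu
  rw [W92892cH53.coeff_ps, dif_pos (by omega)]
  rfl

/-- The matrix at a point `u`. -/
noncomputable def MU {κ m : ℕ} (G Fd : PowerSeries ℂ) (e0 : ℂ) (Z : Fin m → PowerSeries ℂ)
    (c t : ℂ) (u : Option (Fin m × Fin (κ + 1)) → ℂ) : Matrix (Fin m) (Fin (κ / 2 + 1)) ℂ :=
  Matrix.of fun j b => Phi κ Fd e0 (Z j * pu u j)
    (W92892c.hser G (c - u none + t) * X ^ (2 * (b : ℕ)))

theorem MU_pt {κ m : ℕ} (G Fd : PowerSeries ℂ) (e0 : ℂ) (Z Z' : Fin m → PowerSeries ℂ)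
    (c t τ : ℂ) : MU (κ := κ) G Fd e0 Z c t (pt Z' τ) =
      MA κ G Fd e0 (fun j => Z j * Z' j) (c - τ + t) := by
  ext j b
  simp only [MU, MA, Matrix.of_apply]
  refine Phi_congr ?_ (fun _ _ => rfl)
  exact W92892cH53.coeff_mul_congr (n := κ) (fun _ _ => rfl) fun l hl => coeff_pu_pt Z' τ j hl

/-- The counting contradiction. -/
theorem count_contra {κ m q : ℕ} (hκ : 1 ≤ κ) (hq : q = 2 * ((κ / 2 + 1) * (κ + 1) ^ 2))
    {G G' Fd : PowerSeries ℂ} (hG : coeff 0 G = 1) (hG' : coeff 0 G' = 1) (hFd : coeff 0 Fd = 1)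
    (e0 : ℂ) :
    ∀ᶠ n : ℕ in atTop, ∀ (Z : Fin n → Fin m → PowerSeries ℂ)
      (Z' : (Fin n → Fin q) → Fin m → PowerSeries ℂ) (y : Fin n → (Fin n → Fin q) → PowerSeries ℂ)
      (c : Fin n → ℂ) (τ : (Fin n → Fin q) → ℂ) (t : Fin n → Fin q → ℂ)
      (x' : Fin n → (Fin n → Fin q) → Fin m → ℂ),
      (∀ i, Function.Injective (t i)) →
      (∀ i h j, W92892c.IsType G' (x' i h j) (Z i j * Z' h j)) →
      (∀ i h, (κ + 1) ^ 2 < (Finset.univ.image (x' i h)).card) →
      (∀ i h, W92892c.IsType G (c i - τ h + t i (h i)) (y i h)) →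
      (∀ i h j, coeff κ (Fd * (Z i j * Z' h j) * y i h) = e0) → False := by
  classical
  obtain ⟨B, hB⟩ : ∃ B, B = (κ / 2 + 1) * (κ + 1) ^ 2 := ⟨_, rfl⟩
  have hB1 : 1 ≤ B := by rw [hB]; exact Nat.succ_le_of_lt (by positivity)
  rw [← hB] at hq
  obtain ⟨T, hT⟩ : ∃ T, T = κ / 2 + 1 := ⟨_, rfl⟩
  filter_upwards [growth (q * m ^ T * (T * (κ + 1))) (Fintype.card (Option (Fin m × Fin (κ + 1)))) B
    hB1] with n hn
  intro Z Z' y c τ t x' ht hp hx' hy hrel
  subst hT
  -- the polynomials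
  have hpoly : ∀ e : Fin n × Fin q × (Fin (κ / 2 + 1) → Fin m),
      PD (σ := Option (Fin m × Fin (κ + 1))) ((κ / 2 + 1) * (κ + 1)) fun u =>
        ((MU G Fd e0 (Z e.1) (c e.1) (t e.1 e.2.1) u).submatrix e.2.2 id).det := by
    intro e
    refine PD.det fun i b => ?_
    exact entry_PD G Fd e0 (Z e.1 (e.2.2 i)) (e.2.2 i) (b : ℕ) (c e.1) (t e.1 e.2.1)
  choose P hPd hPe using hpoly
  let u : (Fin n → Fin q) → Option (Fin m × Fin (κ + 1)) → ℂ := fun h => pt (Z' h) (τ h)
  let pat : (Fin n → Fin q) → Set (Fin n × Fin q × (Fin (κ / 2 + 1) → Fin m)) := fun h =>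
    {e | MvPolynomial.eval (u h) (P e) ≠ 0}
  -- the rows
  let Row : (Fin n → Fin q) → Fin n → Finset (Fin q) := fun h i =>
    Finset.univ.filter fun r => ∀ g : Fin (κ / 2 + 1) → Fin m, (i, r, g) ∉ pat h
  have hRow : ∀ h i r, r ∈ Row h i ↔ ∃ v : Fin (κ / 2 + 1) → ℂ, v ≠ 0 ∧
      (MA κ G Fd e0 (fun j => Z i j * Z' h j) (c i - τ h + t i r)).mulVec v = 0 := by
    intro h i r
    rw [ker_iff_minors, ← MU_pt]
    simp only [Row, Finset.mem_filter, Finset.mem_univ, true_and, pat, Set.mem_setOf_eq, ne_eq,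
      not_not]
    refine forall_congr' fun g => ?_
    rw [← hPe]
  have hself : ∀ h i, h i ∈ Row h i := by
    intro h i
    rw [hRow]
    refine ker_of_type (hy i h) fun j => ?_
    unfold Phi
    rw [hrel i h j, W92892c.IsType.coeff_zero hG (hy i h),
      W92892c.IsType.coeff_zero hG' (hp i h j)]
    ring
  have hcard : ∀ h i, (Row h i).card ≤ B := by
    intro h i
    have h1 := bad_card hκ hG hG' hFd e0 (x' i h) (fun j => Z i j * Z' h j) (hp i h) (hx' i h)
      ((Row h i).image fun r => c i - τ h + t i r) (by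
        intro x hx
        obtain ⟨r, hr, rfl⟩ := Finset.mem_image.1 hx
        exact (hRow h i r).1 hr)
    rw [Finset.card_image_of_injective _ fun a b hab => ht i (add_left_cancel hab), ← hB] at h1
    exact h1
  -- fibres of the pattern map
  have hfib : ∀ a ∈ (Finset.univ : Finset (Fin n → Fin q)).image pat,
      ((Finset.univ : Finset (Fin n → Fin q)).filter fun h => pat h = a).card ≤ B ^ n := by
    intro a ha
    obtain ⟨h0, -, rfl⟩ := Finset.mem_image.1 ha
    have hsub : ((Finset.univ : Finset (Fin n → Fin q)).filter fun h => pat h = pat h0) ⊆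
        Fintype.piFinset fun i => Row h0 i := by
      intro h hh
      have h1 := (Finset.mem_filter.1 hh).2
      rw [Fintype.mem_piFinset]
      intro i
      have h2 := hself h i
      simp only [Row, Finset.mem_filter, Finset.mem_univ, true_and] at h2 ⊢
      rw [h1] at h2
      exact h2
    refine (Finset.card_le_card hsub).trans ?_
    rw [Fintype.card_piFinset]
    refine (Finset.prod_le_prod' fun i _ => hcard h0 i).trans ?_
    rw [Finset.prod_const, Finset.card_univ, Fintype.card_fin]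
  have h1 := Finset.card_le_mul_card_image (f := pat) (Finset.univ : Finset (Fin n → Fin q)) (B ^ n)
    hfib
  -- the number of patterns
  have h2 : ((Finset.univ : Finset (Fin n → Fin q)).image pat).card ≤
      (n * (q * m ^ (κ / 2 + 1) * ((κ / 2 + 1) * (κ + 1))) + 1) ^
        Fintype.card (Option (Fin m × Fin (κ + 1))) := by
    have hrep : ∀ a : {a // a ∈ (Finset.univ : Finset (Fin n → Fin q)).image pat},
        ∃ h, pat h = a.1 := by
      intro a
      obtain ⟨h, -, hh⟩ := Finset.mem_image.1 a.2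
      exact ⟨h, hh⟩
    choose rep hrep using hrep
    have h3 := zero_patterns ((κ / 2 + 1) * (κ + 1)) P hPd (fun a => u (rep a)) (by
      intro a b hab
      apply Subtype.ext
      rw [← hrep a, ← hrep b]
      exact hab)
    rw [Fintype.card_coe] at h3
    refine h3.trans (le_of_eq ?_)
    congr 2
    rw [Fintype.card_prod, Fintype.card_prod, Fintype.card_fin, Fintype.card_fin, Fintype.card_fun,
      Fintype.card_fin, Fintype.card_fin]
    ring
  rw [Finset.card_univ, Fintype.card_fun, Fintype.card_fin, Fintype.card_fin] at h1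
  have h4 := h1.trans (Nat.mul_le_mul_left _ h2)
  rw [← hq, mul_comm] at hn
  exact absurd h4 (not_le.2 hn)

end W92892cH85
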