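import Pool.Agent.W_92892c_h85.Cfg
import Pool.Agent.W_92892c_h53.NoH1

/-!
The exact formula over `ℚ`, over the quadratic fields and over the biquadratic fields implies the
conjecture for all twists (MP_92892c_nt, team V15).
-/

open Filter Topology

namespace MQV

open PowerSeries

variable {real : Bool} {L : ℤ → ℂ → ℂ} {r : ℤ → ℕ} {c : ℤ → ℂ} {lam : ℤ → ℝ}
  {R : PowerSeries ℂ} {k : ℤ → ℕ} {F : ℤ → PowerSeries ℂ}

theorem support_sum_pcl (e : ℕ → ℕ) (he : ∀ i, (e i).Prime) (hinj : Function.Injective e)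
    (I : Finset ℕ) :
    (∑ i ∈ I, pcl (real := real) (e i) (he i)).support =
      I.map ⟨fun i => (⟨e i, Or.inl (he i)⟩ : Gen real), fun i j hij =>
        hinj (congrArg Subtype.val hij)⟩ := by
  classical
  induction I using Finset.induction_on with
  | empty => simp
  | insert i I hi ih =>
    have hs : (pcl (real := real) (e i) (he i)).support = {⟨e i, Or.inl (he i)⟩} := by
      unfold pcl
      exact Finsupp.support_single _ (one_ne_zero : (1 : ZMod 2) ≠ 0)
    rw [Finset.sum_insert hi, Finsupp.support_add_eq, ih, hs, Finset.map_insert]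
    · rfl
    · rw [ih, hs, Finset.disjoint_singleton_left]
      intro h
      rw [Finset.mem_map] at h
      obtain ⟨j, hj, hji⟩ := h
      have h2 : e j = e i := congrArg Subtype.val hji
      exact hi (hinj h2 ▸ hj)

theorem sqf_sum_pcl (e : ℕ → ℕ) (he : ∀ i, (e i).Prime) (hinj : Function.Injective e)
    (I : Finset ℕ) :
    sqf (∑ i ∈ I, pcl (real := real) (e i) (he i)) = ((∏ i ∈ I, e i : ℕ) : ℤ) := by
  unfold sqf
  rw [support_sum_pcl e he hinj, Finset.prod_map]
  push_cast
  refine Finset.prod_congr rfl fun i _ => ?_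
  show gen (e i) = _
  unfold gen
  rw [if_neg (he i).ne_zero]

theorem om_sum_pcl (e : ℕ → ℕ) (he : ∀ i, (e i).Prime) (hinj : Function.Injective e)
    (I : Finset ℕ) :
    om (∑ i ∈ I, pcl (real := real) (e i) (he i)) = I.card := by
  unfold om
  rw [support_sum_pcl e he hinj, Finset.card_map]

theorem squarefree_prod_primes (e : ℕ → ℕ) (he : ∀ i, (e i).Prime) (hinj : Function.Injective e)
    (I : Finset ℕ) : Squarefree (∏ i ∈ I, e i) := by
  refine Finset.squarefree_prod_of_pairwise_isCoprime ?_ ?_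
  · intro i _ j _ hij
    rw [Function.onFun, Nat.coprime_iff_isRelPrime.symm]
    exact (Nat.coprime_primes (he i) (he j)).2 fun h => hij (hinj h)
  · intro i _
    exact (he i).prime.squarefree

/-- No exceptions. -/
theorem Nrm.all_good (h : Nrm real L r c lam R k F)
    (hlam : ∀ B : ℝ, {d ∈ Twists real | lam d ≤ B}.Finite)
    (hex : ∀ C : Finset ℤ, ↑C ⊆ Twists real → IsCoset C → C.card ≤ 4 → bsdQuot L r c C = 1)
    (hb : ∀ n : ℕ, ∃ M : ℕ, ∀ d ∈ Twists real, d.natAbs.primeFactors.card ≤ n → r d ≤ M)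
    {BB : Set (Cls real)}
    (hD : W92892c.DataB BB R (fun a => lam (sqf a)) (fun a => F (sqf a)) (fun a => k (sqf a)))
    (e : ℕ → ℕ) (he : ∀ i, (e i).Prime) (hinj : Function.Injective e) (l0 : ℝ)
    (hA : ∀ I : Finset ℕ, lam ((∏ i ∈ I, e i : ℕ) : ℤ) = l0 + ∑ i ∈ I, Real.log (e i)) :
    ∀ a : Cls real, k (sqf a) = 0 := by
  classical
  intro a
  by_contra ha
  have hE := h.exact hlam hex
  let p : ℕ → Cls real := fun i => pcl (e i) (he i)
  refine W92892cH85.cfg_contra cls_add_self h.R0 hE a (Nat.one_le_iff_ne_zero.2 ha) p l0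
    (fun i => Real.log (e i)) ?_ ?_ ?_
  · intro i j hij
    have h1 : (0 : ℝ) < (e i : ℝ) := by exact_mod_cast (he i).pos
    have h2 : (0 : ℝ) < (e j : ℝ) := by exact_mod_cast (he j).pos
    have h3 := Real.log_injOn_pos (Set.mem_Ioi.2 h1) (Set.mem_Ioi.2 h2) hij
    exact hinj (by exact_mod_cast h3)
  · intro I
    show lam (sqf (∑ i ∈ I, p i)) = _
    rw [sqf_sum_pcl e he hinj, hA]
  · intro N
    obtain ⟨M, hM⟩ := bdd_cls hb (om a + N)
    have hX := W92892c.coreB_finite h.R0 hD M
    set X : Set (Cls real) := {d | 1 ≤ k (sqf d) ∧ k (sqf d) ≤ M} with hXdef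
    let Y : Set (Cls real) := X ∪ (fun b => a + b) '' X ∪ {0, a}
    have hY : Y.Finite := (hX.union (hX.image _)).union (by simp)
    have hT : {i : ℕ | ∃ b ∈ Y, (⟨e i, Or.inl (he i)⟩ : Gen real) ∈ b.support}.Finite := by
      have h1 : (⋃ b ∈ Y, (b.support : Set (Gen real))).Finite :=
        hY.biUnion fun b _ => b.support.finite_toSet
      refine (h1.preimage (f := fun i : ℕ => (⟨e i, Or.inl (he i)⟩ : Gen real)) ?_).subset ?_
      · intro i _ j _ hij
        exact hinj (congrArg Subtype.val hij)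
      · rintro i ⟨b, hb1, hb2⟩
        simp only [Set.mem_preimage, Set.mem_iUnion]
        exact ⟨b, hb1, hb2⟩
    obtain ⟨N0, hN0⟩ := hT.bddAbove
    refine ⟨N0 + 1, fun I hI hi => ?_⟩
    obtain ⟨i, hiI, hi0⟩ := hi
    have hsupp : (⟨e i, Or.inl (he i)⟩ : Gen real) ∈ (∑ i ∈ I, p i).support := by
      show _ ∈ (∑ i ∈ I, pcl (real := real) (e i) (he i)).support
      rw [support_sum_pcl e he hinj, Finset.mem_map]
      exact ⟨i, hiI, rfl⟩
    have hnot : (∑ i ∈ I, p i) ∉ Y := by
      intro hmem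
      have := hN0 ⟨_, hmem, hsupp⟩
      omega
    have hom : om (∑ i ∈ I, p i) ≤ N := by
      show om (∑ i ∈ I, pcl (real := real) (e i) (he i)) ≤ N
      rw [om_sum_pcl e he hinj]
      exact hI
    have hk1 : k (sqf (∑ i ∈ I, p i)) = 0 := by
      by_contra hne
      apply hnot
      left; left
      exact ⟨Nat.one_le_iff_ne_zero.2 hne,
        (h.rk _ (sqf_mem _)).trans (hM _ (hom.trans (Nat.le_add_left _ _)))⟩
    have hk2 : k (sqf (a + ∑ i ∈ I, p i)) = 0 := by
      by_contra hne
      apply hnot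
      left; right
      refine ⟨a + ∑ i ∈ I, p i, ⟨Nat.one_le_iff_ne_zero.2 hne,
        (h.rk _ (sqf_mem _)).trans (hM _ ((om_add _ _).trans (Nat.add_le_add_left hom _)))⟩, ?_⟩
      show a + (a + ∑ i ∈ I, p i) = _
      rw [← add_assoc, cls_add_self, zero_add]
    refine ⟨hk1, hk2, fun h0 => hnot (Or.inr (by rw [h0]; simp)), fun h0 => hnot (Or.inr (by
      rw [h0]; simp))⟩

/-- For every elliptic curve: the formula over `ℚ`, the quadratic fields and the biquadratic fields is
equivalent to the conjecture for all twists over `ℚ`, and to the formula over all multiquadratic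
fields.  No hypothesis on the ranks. -/
theorem literal_biq {a2 a4 a6 : ℤ} (hΔ : (gcurve a2 a4 a6 1).Δ ≠ 0) (real : Bool) (γ : ℂ → ℂ)
    (L : ℤ → ℂ → ℂ) (A : ℤ → ℝ) (c : ℤ → ℂ) (hF : TwistFamily real γ L A c)
    (hcond : Conductors A) :
    List.TFAE [
      ∀ d ∈ Twists real, BSD (L d) (rk a2 a4 a6 d) (c d),
      ∀ C : Finset ℤ, ↑C ⊆ Twists real → IsCoset C → ∀ d ∈ C, quotK a2 a4 a6 L c d C = 1,
      ∀ C : Finset ℤ, ↑C ⊆ Twists real → IsCoset C → C.card ≤ 4 → ∀ d ∈ C,
        quotK a2 a4 a6 L c d C = 1] := by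
  tfae_have 1 → 2 := by
    intro h C hC hC' d hd
    rw [quotK_eq hΔ L c real C hC' hC d hd]
    exact quot_of_bsd real γ L A c hF (rk a2 a4 a6) h C hC
  tfae_have 2 → 3 := by
    intro h C hC hC' _
    exact h C hC hC'
  tfae_have 3 → 1 := by
    intro h
    have hex : ∀ C : Finset ℤ, ↑C ⊆ Twists real → IsCoset C → C.card ≤ 4 →
        bsdQuot L (rk a2 a4 a6) c C = 1 := by
      intro C hC hC' h4
      obtain ⟨e, he⟩ := hC'.nonempty
      rw [← quotK_eq hΔ L c real C hC' hC e he]
      exact h C hC hC' h4 e he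
    obtain ⟨R, k, F, hN, hk⟩ := hF.nrm2 (r := rk a2 a4 a6)
      (fun d hd => hex {d} (by simpa using hd) (isCoset_singleton d) (by simp))
    have hlam : ∀ B : ℝ, {d ∈ Twists real | Real.log (A d) ≤ B}.Finite := by
      intro B
      refine (hF.fin (Real.exp B)).subset ?_
      rintro d ⟨hd, hB⟩
      exact ⟨hd, (Real.log_le_iff_le_exp (hF.pos d hd)).1 hB⟩
    obtain ⟨S, hS, hSp, A0, hA0, hA⟩ := hcond
    let e0 := hS.natEmbedding S
    let e : ℕ → ℕ := fun i => (e0 i : ℕ)
    have he : ∀ i, (e i).Prime := fun i => hSp _ (e0 i).2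
    have hinj : Function.Injective e := fun i j hij => e0.injective (Subtype.ext hij)
    have hlog : ∀ I : Finset ℕ, Real.log (A ((∏ i ∈ I, e i : ℕ) : ℤ)) =
        Real.log A0 + ∑ i ∈ I, Real.log (e i) := by
      intro I
      rw [hA _ (squarefree_prod_primes e he hinj I) ?_]
      · push_cast
        rw [Real.log_mul hA0.ne' (Finset.prod_ne_zero_iff.2 fun i _ => by
          exact_mod_cast (he i).ne_zero), Real.log_prod fun i _ => by
          exact_mod_cast (he i).ne_zero]
      · intro x hx hxd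
        rw [hx.prime.dvd_finsetProd_iff] at hxd
        obtain ⟨i, _, hi⟩ := hxd
        rw [Nat.prime_dvd_prime_iff_eq hx (he i)] at hi
        rw [hi]
        exact (e0 i).2
    have hD := hN.good_of_exact hlam hex (rk_bound hΔ real) (Set.range e)
      (Set.infinite_range_of_injective hinj) (by rintro _ ⟨i, rfl⟩; exact he i)
      (Real.log A0) (by
        rintro _ ⟨p, rfl⟩ _ ⟨q, rfl⟩ _ ⟨l, rfl⟩ _ ⟨m, rfl⟩ h1 h2 h3 h4 h5 h6
        have n1 : p ≠ q := fun h => h1 (h ▸ rfl)
        have n2 : p ≠ l := fun h => h2 (h ▸ rfl)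
        have n3 : p ≠ m := fun h => h3 (h ▸ rfl)
        have n4 : q ≠ l := fun h => h4 (h ▸ rfl)
        have n5 : q ≠ m := fun h => h5 (h ▸ rfl)
        have n6 : l ≠ m := fun h => h6 (h ▸ rfl)
        have h7 := hlog {p, q, l, m}
        rw [Finset.prod_insert (by simp [n1, n2, n3]), Finset.prod_insert (by simp [n4, n5]),
          Finset.prod_insert (by simp [n6]), Finset.prod_singleton,
          Finset.sum_insert (by simp [n1, n2, n3]), Finset.sum_insert (by simp [n4, n5]),
          Finset.sum_insert (by simp [n6]), Finset.sum_singleton] at h7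
        have e1 : ((e p : ℤ) * e q * e l * e m) = ((e p * (e q * (e l * e m)) : ℕ) : ℤ) := by
          push_cast; ring
        rw [e1, h7]
        ring)
    have hall := hN.all_good hlam hex (rk_bound hΔ real) hD e he hinj (Real.log A0) hlog
    intro d hd
    obtain ⟨a, ha⟩ := exists_sqf hd
    rw [hN.bsd d hd, ← ha]
    exact hall a
  tfae_finish

end MQV
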