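import Pool.Agent.W_92892c_h85.Bad

/-!
Polynomial functions of bounded degree.
-/

namespace W92892cH85

open Finset PowerSeries

/-- Polynomial functions of total degree at most `D`. -/
def PD {σ : Type*} (D : ℕ) (g : (σ → ℂ) → ℂ) : Prop :=
  ∃ P : MvPolynomial σ ℂ, P.totalDegree ≤ D ∧ ∀ u, g u = MvPolynomial.eval u P

variable {σ : Type*}

theorem PD.const (D : ℕ) (c : ℂ) : PD (σ := σ) D fun _ => c :=
  ⟨MvPolynomial.C c, by rw [MvPolynomial.totalDegree_C]; exact Nat.zero_le _, fun u => by simp⟩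

theorem PD.coord (i : σ) : PD 1 fun u : σ → ℂ => u i :=
  ⟨MvPolynomial.X i, by rw [MvPolynomial.totalDegree_X], fun u => by simp⟩

theorem PD.mono {D D' : ℕ} {g : (σ → ℂ) → ℂ} (h : PD D g) (hD : D ≤ D') : PD D' g := by
  obtain ⟨P, h1, h2⟩ := h
  exact ⟨P, h1.trans hD, h2⟩

theorem PD.congr {D : ℕ} {g g' : (σ → ℂ) → ℂ} (h : PD D g) (hg : ∀ u, g' u = g u) : PD D g' := by
  obtain ⟨P, h1, h2⟩ := h
  exact ⟨P, h1, fun u => by rw [hg, h2]⟩

theorem PD.add {D : ℕ} {f g : (σ → ℂ) → ℂ} (hf : PD D f) (hg : PD D g) :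
    PD D fun u => f u + g u := by
  obtain ⟨P, h1, h2⟩ := hf
  obtain ⟨Q, h3, h4⟩ := hg
  exact ⟨P + Q, (MvPolynomial.totalDegree_add _ _).trans (max_le h1 h3), fun u => by
    beta_reduce
    rw [map_add, h2, h4]⟩

theorem PD.mul {D D' : ℕ} {f g : (σ → ℂ) → ℂ} (hf : PD D f) (hg : PD D' g) :
    PD (D + D') fun u => f u * g u := by
  obtain ⟨P, h1, h2⟩ := hf
  obtain ⟨Q, h3, h4⟩ := hg
  exact ⟨P * Q, (MvPolynomial.totalDegree_mul _ _).trans (Nat.add_le_add h1 h3), fun u => by
    beta_reduce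
    rw [map_mul, h2, h4]⟩

theorem PD.const_mul {D : ℕ} (c : ℂ) {g : (σ → ℂ) → ℂ} (hg : PD D g) : PD D fun u => c * g u := by
  have := (PD.const (σ := σ) 0 c).mul hg
  rwa [zero_add] at this

theorem PD.sub {D : ℕ} {f g : (σ → ℂ) → ℂ} (hf : PD D f) (hg : PD D g) :
    PD D fun u => f u - g u :=
  (hf.add (hg.const_mul (-1))).congr fun u => by ring

theorem PD.sum {D : ℕ} {ι : Type*} (s : Finset ι) {f : ι → (σ → ℂ) → ℂ}
    (h : ∀ i ∈ s, PD D (f i)) : PD D fun u => ∑ i ∈ s, f i u := by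
  classical
  induction s using Finset.induction_on with
  | empty => simpa using PD.const (σ := σ) D 0
  | insert i s hi ih =>
    refine ((h i (Finset.mem_insert_self _ _)).add
      (ih fun j hj => h j (Finset.mem_insert_of_mem hj))).congr fun u => ?_
    rw [Finset.sum_insert hi]

theorem PD.prod {D : ℕ} {ι : Type*} (s : Finset ι) {f : ι → (σ → ℂ) → ℂ}
    (h : ∀ i ∈ s, PD D (f i)) : PD (s.card * D) fun u => ∏ i ∈ s, f i u := by
  classical
  induction s using Finset.induction_on with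
  | empty => simpa using PD.const (σ := σ) 0 1
  | insert i s hi ih =>
    refine (((h i (Finset.mem_insert_self _ _)).mul
      (ih fun j hj => h j (Finset.mem_insert_of_mem hj))).mono ?_).congr fun u => ?_
    · rw [Finset.card_insert_of_notMem hi]
      exact le_of_eq (by ring)
    · rw [Finset.prod_insert hi]

theorem PD.pow {D : ℕ} {f : (σ → ℂ) → ℂ} (h : PD D f) (n : ℕ) : PD (n * D) fun u => f u ^ n := by
  have := PD.prod (Finset.range n) (f := fun _ => f) (fun _ _ => h)
  rw [Finset.card_range] at this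
  exact this.congr fun u => by rw [Finset.prod_const, Finset.card_range]

theorem PD.det {D T : ℕ} {A : (σ → ℂ) → Matrix (Fin T) (Fin T) ℂ}
    (h : ∀ i j, PD D fun u => A u i j) : PD (T * D) fun u => (A u).det := by
  have h1 : PD (T * D) fun u => ∑ p : Equiv.Perm (Fin T), ((Equiv.Perm.sign p : ℤ) : ℂ) *
      ∏ i : Fin T, A u (p i) i := by
    refine PD.sum _ fun p _ => PD.const_mul _ ?_
    have := PD.prod (Finset.univ : Finset (Fin T)) (f := fun i u => A u (p i) i) (fun i _ => h _ _)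
    rwa [Finset.card_univ, Fintype.card_fin] at this
  exact h1.congr fun u => by rw [Matrix.det_apply']

/-- Power series valued functions whose coefficients up to `N` are polynomial of degree `≤ D`. -/
def PDS (D N : ℕ) (F : (σ → ℂ) → PowerSeries ℂ) : Prop := ∀ l ≤ N, PD D fun u => coeff l (F u)

theorem PDS.const (N : ℕ) (A : PowerSeries ℂ) : PDS (σ := σ) 0 N fun _ => A := fun _ _ => PD.const _ _

theorem PDS.mul {D D' N : ℕ} {F F' : (σ → ℂ) → PowerSeries ℂ} (h : PDS D N F) (h' : PDS D' N F') :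
    PDS (D + D') N fun u => F u * F' u := by
  intro l hl
  have h1 : PD (D + D') fun u => ∑ q ∈ HasAntidiagonal.antidiagonal l,
      coeff q.1 (F u) * coeff q.2 (F' u) := by
    refine PD.sum _ fun q hq => ?_
    rw [HasAntidiagonal.mem_antidiagonal] at hq
    exact (h q.1 (by omega)).mul (h' q.2 (by omega))
  exact h1.congr fun u => by rw [PowerSeries.coeff_mul]

theorem PDS.hser (G : PowerSeries ℂ) (N : ℕ) {x : (σ → ℂ) → ℂ} (hx : PD 1 x) :
    PDS N N fun u => W92892c.hser G (x u) := by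
  intro l hl
  have h1 : PD N fun u => ∑ ab ∈ HasAntidiagonal.antidiagonal l,
      x u ^ ab.1 * (1 / (ab.1.factorial : ℂ)) * coeff ab.2 G := by
    refine PD.sum _ fun ab hab => ?_
    rw [HasAntidiagonal.mem_antidiagonal] at hab
    have h2 := (hx.pow ab.1).const_mul ((1 / (ab.1.factorial : ℂ)) * coeff ab.2 G)
    exact (h2.mono (by omega)).congr fun u => by ring
  exact h1.congr fun u => by rw [W92892c.coeff_hser]

/-- The series with the coordinates of `u` as coefficients. -/
noncomputable def pu {κ m : ℕ} (u : Option (Fin m × Fin (κ + 1)) → ℂ) (j : Fin m) : PowerSeries ℂ :=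
  W92892cH53.ps fun l : Fin (κ + 1) => u (some (j, l))

theorem PDS.pu {κ m : ℕ} (j : Fin m) :
    PDS (σ := Option (Fin m × Fin (κ + 1))) 1 κ fun u => pu u j := by
  intro l hl
  exact (PD.coord (some (j, (⟨l, by omega⟩ : Fin (κ + 1))))).congr fun u => by
    unfold W92892cH85.pu
    rw [W92892cH53.coeff_ps, dif_pos (by omega)]

/-- The entries are polynomial. -/
theorem entry_PD {κ m : ℕ} (G Fd : PowerSeries ℂ) (e0 : ℂ) (A : PowerSeries ℂ) (j : Fin m)
    (b : ℕ) (c t : ℂ) :
    PD (σ := Option (Fin m × Fin (κ + 1))) (κ + 1) fun u => Phi κ Fd e0 (A * pu u j)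
      (W92892c.hser G (c - u none + t) * X ^ (2 * b)) := by
  have hx : PD (σ := Option (Fin m × Fin (κ + 1))) 1 fun u => c - u none + t :=
    ((PD.const 1 c).sub (PD.coord none)).add (PD.const 1 t)
  have hA : PDS (σ := Option (Fin m × Fin (κ + 1))) 1 κ fun u => A * pu u j := by
    have := (PDS.const κ A).mul (PDS.pu (κ := κ) j)
    rwa [zero_add] at this
  have hB : PDS (σ := Option (Fin m × Fin (κ + 1))) κ κ fun u =>
      W92892c.hser G (c - u none + t) * X ^ (2 * b) := by
    have := (PDS.hser G κ hx).mul (PDS.const κ (X ^ (2 * b)))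
    rwa [add_zero] at this
  have hF : PDS (σ := Option (Fin m × Fin (κ + 1))) (κ + 1) κ fun u => Fd * (A * pu u j) *
      (W92892c.hser G (c - u none + t) * X ^ (2 * b)) := by
    have h1 := ((PDS.const κ Fd).mul hA).mul hB
    exact fun l hl => (h1 l hl).mono (by omega)
  have h2 := ((hA 0 (Nat.zero_le _)).mul (hB 0 (Nat.zero_le _))).const_mul e0
  exact (hF κ le_rfl).sub (h2.mono (by omega))

end W92892cH85
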